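import Mathlib

/-!
# Plane spanning trees of a convex polygon: coordinates and basic lemmas

The vertices of the convex `n`-gon are the elements of `ZMod n` in cyclic order.
-/

set_option autoImplicit false

namespace Pool.Agent.Helper28K9.TG

open SimpleGraph

/-- `a, c, b, d` are distinct and occur in this cyclic order -/
def Cr {n : ℕ} (a b c d : ZMod n) : Prop :=
  0 < (c - a).val ∧ (c - a).val < (b - a).val ∧ (b - a).val < (d - a).val

/-- the chords `ab` and `cd` of the convex polygon cross -/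
def X {n : ℕ} (a b c d : ZMod n) : Prop := Cr a b c d ∨ Cr a b d c

/-- no two edges cross -/
def NC {n : ℕ} (G : SimpleGraph (ZMod n)) : Prop :=
  ∀ a b c d, G.Adj a b → G.Adj c d → ¬ X a b c d

section coord

variable {n : ℕ} [NeZero n]

lemma val_diff (u : ZMod n) {i j : ℕ} (hij : i ≤ j) (hj : j < n) :
    ((u + (j : ZMod n)) - (u + (i : ZMod n))).val = j - i := by
  have : (u + (j : ZMod n)) - (u + (i : ZMod n)) = ((j - i : ℕ) : ZMod n) := by
    rw [Nat.cast_sub hij]; ring
  rw [this, ZMod.val_cast_of_lt (by omega)]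

lemma coord_inj (u : ZMod n) {i j : ℕ} (hi : i < n) (hj : j < n)
    (h : u + (i : ZMod n) = u + (j : ZMod n)) : i = j := by
  have h' : (i : ZMod n) = (j : ZMod n) := add_left_cancel h
  have := congrArg ZMod.val h'
  rwa [ZMod.val_cast_of_lt hi, ZMod.val_cast_of_lt hj] at this

lemma exists_coord (u x : ZMod n) : ∃ i : ℕ, i < n ∧ x = u + (i : ZMod n) :=
  ⟨(x - u).val, ZMod.val_lt _, by rw [ZMod.natCast_zmod_val]; ring⟩

lemma cr_coord (u : ZMod n) {i j k l : ℕ} (hij : i < j) (hjk : j < k) (hkl : k < l) (hl : l < n) :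
    Cr (u + (i : ZMod n)) (u + (k : ZMod n)) (u + (j : ZMod n)) (u + (l : ZMod n)) := by
  unfold Cr
  rw [val_diff u hij.le (by omega), val_diff u (by omega) (by omega), val_diff u (by omega) hl]
  omega

lemma nc_coord {G : SimpleGraph (ZMod n)} (h : NC G) (u : ZMod n) {i j k l : ℕ} (hij : i < j)
    (hjk : j < k) (hkl : k < l) (hl : l < n) (h1 : G.Adj (u + (i : ZMod n)) (u + (k : ZMod n)))
    (h2 : G.Adj (u + (j : ZMod n)) (u + (l : ZMod n))) : False :=
  h _ _ _ _ h1 h2 (Or.inl (cr_coord u hij hjk hkl hl))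

/-- the boundary edge from `i` to `i + 1` -/
def c (i : ZMod n) : Sym2 (ZMod n) := s(i, i + 1)

lemma coord_succ (u : ZMod n) (i : ℕ) : u + ((i + 1 : ℕ) : ZMod n) = u + (i : ZMod n) + 1 := by
  push_cast; ring

lemma coord_add (u : ZMod n) (i j : ℕ) :
    u + ((i + j : ℕ) : ZMod n) = u + (i : ZMod n) + (j : ZMod n) := by
  push_cast; ring

lemma coord_n (u : ZMod n) : u + (n : ZMod n) = u := by simp

lemma edge_eq (u : ZMod n) {i j k l : ℕ} (hi : i < n) (hj : j < n) (hk : k < n) (hl : l < n)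
    (hij : i < j) (hkl : k < l)
    (h : s(u + (i : ZMod n), u + (j : ZMod n)) = s(u + (k : ZMod n), u + (l : ZMod n))) :
    i = k ∧ j = l := by
  rw [Sym2.eq_iff] at h
  rcases h with ⟨h1, h2⟩ | ⟨h1, h2⟩
  · exact ⟨coord_inj u hi hk h1, coord_inj u hj hl h2⟩
  · have := coord_inj u hi hl h1
    have := coord_inj u hj hk h2
    omega

lemma c_inj (hn : 3 ≤ n) {i j : ZMod n} (h : c i = c j) : i = j := by
  obtain ⟨k, hk, rfl⟩ := exists_coord i j
  unfold c at h
  rw [Sym2.eq_iff] at h
  rcases h with ⟨h1, _⟩ | ⟨h1, h2⟩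
  · exact h1
  · -- i = i + k + 1, i + 1 = i + k
    have h3 : i + ((1 : ℕ) : ZMod n) = i + (k : ZMod n) := by push_cast; exact h2
    have h4 := coord_inj i (by omega) hk h3
    subst h4
    exfalso
    have h5 : i + ((0 : ℕ) : ZMod n) = i + ((2 : ℕ) : ZMod n) := by
      push_cast
      push_cast at h1
      rw [add_zero]
      calc i = i + 1 + 1 := h1
        _ = i + 2 := by ring
    have := coord_inj i (by omega) (by omega) h5
    omega

/-- set of the boundary edges -/
noncomputable def bd (n : ℕ) [NeZero n] : Finset (Sym2 (ZMod n)) := by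
  classical exact Finset.univ.image (c (n := n))

lemma mem_bd {e : Sym2 (ZMod n)} : e ∈ bd n ↔ ∃ i, c i = e := by
  classical
  simp [bd]

lemma c_mem (i : ZMod n) : c i ∈ bd n := mem_bd.2 ⟨i, rfl⟩

lemma card_bd (hn : 3 ≤ n) : (bd n).card = n := by
  classical
  unfold bd
  rw [Finset.card_image_of_injective _ (fun i j h => c_inj hn h), Finset.card_univ, ZMod.card]

/-- a chord in coordinates is a boundary edge iff .. -/
lemma chord_mem_bd (u : ZMod n) {i j : ℕ} (hij : i < j) (hj : j < n)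
    (h : s(u + (i : ZMod n), u + (j : ZMod n)) ∈ bd n) : j = i + 1 ∨ (i = 0 ∧ j = n - 1) := by
  obtain ⟨x, hx⟩ := mem_bd.1 h
  obtain ⟨m, hm, rfl⟩ := exists_coord u x
  unfold c at hx
  rw [← coord_succ] at hx
  by_cases hm1 : m + 1 < n
  · have := edge_eq u hm hm1 (by omega) hj (by omega) hij hx
    omega
  · have hmn : m + 1 = n := by omega
    rw [hmn, coord_n, Sym2.eq_swap] at hx
    have hx' : s(u + ((0 : ℕ) : ZMod n), u + (m : ZMod n)) =
        s(u + (i : ZMod n), u + (j : ZMod n)) := by simpa using hx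
    by_cases hm0 : m = 0
    · omega
    · have := edge_eq u (by omega) hm (by omega) hj (by omega) hij hx'
      omega

lemma chord_not_mem_bd (u : ZMod n) {k : ℕ} (hk : 2 ≤ k) (hk' : k + 2 ≤ n) :
    s(u, u + (k : ZMod n)) ∉ bd n := by
  intro h
  have h' : s(u + ((0 : ℕ) : ZMod n), u + (k : ZMod n)) ∈ bd n := by simpa using h
  rcases chord_mem_bd u (by omega) (by omega) h' with h1 | h1
  · omega
  · omega

/-- boundary edges do not cross anything -/
lemma cr_not_bd {a b x y : ZMod n} (h : Cr a b x y) : s(a, b) ∉ bd n ∧ s(x, y) ∉ bd n := by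
  obtain ⟨i, hi, rfl⟩ := exists_coord a x
  obtain ⟨j, hj, rfl⟩ := exists_coord a b
  obtain ⟨k, hk, rfl⟩ := exists_coord a y
  unfold Cr at h
  have e : ∀ m : ℕ, m < n → (a + (m : ZMod n) - a).val = m := by
    intro m hm
    have := val_diff a (Nat.zero_le m) hm
    simpa using this
  rw [e i hi, e j hj, e k hk] at h
  constructor
  · intro hb
    have hb' : s(a + ((0 : ℕ) : ZMod n), a + (j : ZMod n)) ∈ bd n := by simpa using hb
    rcases chord_mem_bd a (by omega) hj hb' with h1 | h1
    · omega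
    · omega
  · intro hb
    rcases chord_mem_bd a (by omega) hk hb with h1 | h1
    · omega
    · omega

lemma x_not_bd {a b x y : ZMod n} (h : X a b x y) : s(a, b) ∉ bd n ∧ s(x, y) ∉ bd n := by
  rcases h with h | h
  · exact cr_not_bd h
  · have := cr_not_bd h
    exact ⟨this.1, by rw [Sym2.eq_swap]; exact this.2⟩

lemma x_ne {a b x y : ZMod n} (h : X a b x y) : s(a, b) ≠ s(x, y) := by
  have key : ∀ {x y : ZMod n}, Cr a b x y → s(a, b) ≠ s(x, y) := by
    intro x y h hh
    unfold Cr at h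
    rw [Sym2.eq_iff] at hh
    rcases hh with ⟨rfl, _⟩ | ⟨rfl, rfl⟩
    · simp at h
    · simp at h
  rcases h with h | h
  · exact key h
  · intro hh
    exact key h (by rw [hh, Sym2.eq_swap])

end coord

end Pool.Agent.Helper28K9.TG
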