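import Mathlib
import Pool.Agent.Helper28K9.TG.Base

/-!
# Plane spanning trees of a convex polygon: structure lemmas
-/

set_option autoImplicit false
set_option linter.unusedSectionVars false

namespace Pool.Agent.Helper28K9.TG

open SimpleGraph

section

variable {n : ℕ} [NeZero n]

/-- edge set as a finset -/
noncomputable def E (G : SimpleGraph (ZMod n)) : Finset (Sym2 (ZMod n)) :=
  (Set.toFinite G.edgeSet).toFinset

@[simp] lemma mem_E {G : SimpleGraph (ZMod n)} {e : Sym2 (ZMod n)} : e ∈ E G ↔ e ∈ G.edgeSet := by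
  simp [E]

lemma E_inj {G H : SimpleGraph (ZMod n)} (h : E G = E H) : G = H := by
  apply SimpleGraph.edgeSet_injective
  ext e
  rw [← mem_E, h, mem_E]

lemma tree_iff {G : SimpleGraph (ZMod n)} : G.IsTree ↔ G.Connected ∧ (E G).card + 1 = n := by
  rw [isTree_iff_connected_and_card]
  have h1 : Nat.card G.edgeSet = (E G).card := by
    rw [Nat.card_coe_set_eq, E, Set.ncard_eq_toFinset_card]
  have h2 : Nat.card (ZMod n) = n := Nat.card_zmod n
  rw [h1, h2]

lemma reach_bd {G : SimpleGraph (ZMod n)} (u : ZMod n) {i j : ℕ} (hij : i ≤ j)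
    (h : ∀ m, i ≤ m → m < j → c (u + (m : ZMod n)) ∈ G.edgeSet) :
    G.Reachable (u + (i : ZMod n)) (u + (j : ZMod n)) := by
  induction j, hij using Nat.le_induction with
  | base => exact Reachable.refl _
  | succ j hj ih =>
    refine (ih fun m h1 h2 => h m h1 (by omega)).trans ?_
    rw [coord_succ]
    exact Adj.reachable (h j hj (by omega))

lemma closed_reach {G : SimpleGraph (ZMod n)} {S : Set (ZMod n)}
    (hS : ∀ x ∈ S, ∀ y, G.Adj x y → y ∈ S) {x y : ZMod n} (hx : x ∈ S) (h : G.Reachable x y) :
    y ∈ S := by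
  obtain ⟨w⟩ := h
  induction w with
  | nil => exact hx
  | cons hadj _ ih => exact ih (hS _ hx _ hadj)

lemma bridge {G : SimpleGraph (ZMod n)} (hG : G.IsTree) {x y : ZMod n} (h : G.Adj x y)
    {H : SimpleGraph (ZMod n)} (hH : ∀ a b, H.Adj a b → G.Adj a b ∧ s(a, b) ≠ s(x, y)) :
    ¬ H.Reachable x y := by
  intro hr
  have hb := (isAcyclic_iff_forall_adj_isBridge.1 hG.isAcyclic) h
  rw [isBridge_iff] at hb
  apply hb
  refine hr.mono ?_
  intro a b hab
  rw [deleteEdges_adj]
  refine ⟨(hH a b hab).1, ?_⟩
  simp only [Set.mem_singleton_iff]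
  exact (hH a b hab).2

/-- The side lemma: on the inner side of an innermost edge `u, u + k` exactly one boundary edge is
missing. -/
lemma side {G : SimpleGraph (ZMod n)} (hG : G.IsTree) (hN : NC G) (u : ZMod n) {k : ℕ}
    (hk : 2 ≤ k) (hkn : k < n) (hadj : G.Adj u (u + (k : ZMod n)))
    (hin : ∀ i j : ℕ, i < j → j ≤ k → G.Adj (u + (i : ZMod n)) (u + (j : ZMod n)) →
      j = i + 1 ∨ (i = 0 ∧ j = k)) :
    ∃ j < k, ∀ m < k, (c (u + (m : ZMod n)) ∈ G.edgeSet ↔ m ≠ j) := by
  classical
  have h0 : u + ((0 : ℕ) : ZMod n) = u := by simp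
  -- some edge is missing
  have hex : ∃ j < k, c (u + (j : ZMod n)) ∉ G.edgeSet := by
    by_contra hcon
    push Not at hcon
    set H : SimpleGraph (ZMod n) := G.deleteEdges {s(u, u + (k : ZMod n))} with hH
    refine bridge hG hadj (H := H) ?_ ?_
    · intro a b hab
      rw [hH, deleteEdges_adj] at hab
      exact ⟨hab.1, by simpa using hab.2⟩
    · have := reach_bd (G := H) u (Nat.zero_le k) ?_
      · rwa [h0] at this
      · intro m _ hm
        rw [hH]
        simp only [edgeSet_deleteEdges, Set.mem_sdiff, Set.mem_singleton_iff]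
        refine ⟨hcon m hm, ?_⟩
        unfold c
        rw [← coord_succ]
        intro he
        have he' : s(u + (m : ZMod n), u + ((m + 1 : ℕ) : ZMod n)) =
            s(u + ((0 : ℕ) : ZMod n), u + (k : ZMod n)) := by rw [he, h0]
        have := edge_eq u (by omega) (by omega) (by omega) (by omega) (by omega) (by omega) he'
        omega
  obtain ⟨j, hj, hjm⟩ := hex
  refine ⟨j, hj, fun m hm => ⟨fun h1 h2 => hjm (h2 ▸ h1), fun hmj => ?_⟩⟩
  by_contra hmm
  -- two missing edges j, m
  have key : ∀ a b : ℕ, a < b → b < k → c (u + (a : ZMod n)) ∉ G.edgeSet →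
      c (u + (b : ZMod n)) ∉ G.edgeSet → False := by
    intro a b hab hbk ha hb
    set S : Set (ZMod n) := {x | ∃ m : ℕ, a < m ∧ m ≤ b ∧ x = u + (m : ZMod n)} with hS
    have hcl : ∀ x ∈ S, ∀ y, G.Adj x y → y ∈ S := by
      rintro x ⟨m, hm1, hm2, rfl⟩ y hy
      obtain ⟨l, hl, rfl⟩ := exists_coord u y
      have hlk : l ≤ k := by
        by_contra hlk
        push Not at hlk
        exact nc_coord hN u (i := 0) (j := m) (k := k) (l := l) (by omega) (by omega) hlk hl
          (by rw [h0]; exact hadj) hy
      have hml : m ≠ l := by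
        rintro rfl
        exact G.loopless.irrefl _ hy
      rcases lt_or_gt_of_ne hml with h | h
      · have h1 := hin m l h hlk hy
        have h2 : l = m + 1 := by omega
        subst h2
        by_cases hmb : m = b
        · subst hmb
          exfalso
          apply hb
          unfold c
          rw [← coord_succ]
          exact hy
        · exact ⟨m + 1, by omega, by omega, rfl⟩
      · have h1 := hin l m h (by omega) hy.symm
        have h2 : m = l + 1 := by omega
        subst h2
        by_cases hla : l = a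
        · subst hla
          exfalso
          apply ha
          unfold c
          rw [← coord_succ]
          exact hy.symm
        · exact ⟨l, by omega, by omega, rfl⟩
    have hmem : u + ((b : ℕ) : ZMod n) ∈ S := ⟨b, hab, le_refl _, rfl⟩
    have h2 := closed_reach hcl hmem (hG.connected.preconnected _ (u + ((0 : ℕ) : ZMod n)))
    obtain ⟨m, hm1, hm2, hm3⟩ := h2
    have := coord_inj u (by omega) (by omega) hm3
    omega
  rcases lt_or_gt_of_ne hmj with h | h
  · exact key m j h hj hmm hjm
  · exact key j m h hm hjm hmm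

end

end Pool.Agent.Helper28K9.TG
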