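import Mathlib
import Pool.Agent.Helper28K9.TG.Tree

/-!
# Plane spanning trees of a convex polygon: exchanges
-/

set_option autoImplicit false
set_option linter.unusedSectionVars false

namespace Pool.Agent.Helper28K9.TG

open SimpleGraph

section

variable {n : ℕ} [NeZero n]

/-- plane spanning trees of maximum degree at most `d` -/
def IsV (d : ℕ) (G : SimpleGraph (ZMod n)) : Prop :=
  G.IsTree ∧ NC G ∧ ∀ v, (G.neighborSet v).ncard ≤ d

lemma E_fromEdgeSet {s : Finset (Sym2 (ZMod n))} (hs : ∀ e ∈ s, ¬ e.IsDiag) :
    E (fromEdgeSet (s : Set (Sym2 (ZMod n)))) = s := by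
  ext e
  rw [mem_E, edgeSet_fromEdgeSet]
  constructor
  · intro h
    exact_mod_cast h.1
  · intro h
    refine ⟨by exact_mod_cast h, ?_⟩
    have := hs e h
    simpa using this

lemma c_not_diag (hn : 2 ≤ n) (i : ZMod n) : ¬ (c i).IsDiag := by
  unfold c
  rw [Sym2.mk_isDiag_iff]
  intro h
  have h' : i + ((0 : ℕ) : ZMod n) = i + ((1 : ℕ) : ZMod n) := by simpa using h
  have := coord_inj i (by omega) (by omega) h'
  omega

lemma E_not_diag {G : SimpleGraph (ZMod n)} {e : Sym2 (ZMod n)} (h : e ∈ E G) : ¬ e.IsDiag := by
  rw [mem_E] at h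
  exact G.not_isDiag_of_mem_edgeSet h

lemma inner_nb {G : SimpleGraph (ZMod n)} (hN : NC G) (u : ZMod n) {k : ℕ}
    (hkn : k < n) (hadj : G.Adj u (u + (k : ZMod n)))
    (hin : ∀ i j : ℕ, i < j → j ≤ k → G.Adj (u + (i : ZMod n)) (u + (j : ZMod n)) →
      j = i + 1 ∨ (i = 0 ∧ j = k)) {m : ℕ} (hm0 : 0 < m) (hmk : m < k) {y : ZMod n}
    (hy : G.Adj (u + (m : ZMod n)) y) :
    (y = u + ((m + 1 : ℕ) : ZMod n) ∧ c (u + (m : ZMod n)) ∈ G.edgeSet) ∨
      (y = u + ((m - 1 : ℕ) : ZMod n) ∧ c (u + ((m - 1 : ℕ) : ZMod n)) ∈ G.edgeSet) := by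
  have h0 : u + ((0 : ℕ) : ZMod n) = u := by simp
  obtain ⟨l, hl, rfl⟩ := exists_coord u y
  have hlk : l ≤ k := by
    by_contra hlk
    push Not at hlk
    exact nc_coord hN u (i := 0) (j := m) (k := k) (l := l) (by omega) (by omega) hlk hl
      (by rw [h0]; exact hadj) hy
  have hml : m ≠ l := by
    rintro rfl
    exact G.loopless.irrefl _ hy
  rcases lt_or_gt_of_ne hml with h | h
  · have h1 := hin m l h hlk hy
    have h2 : l = m + 1 := by omega
    subst h2
    refine Or.inl ⟨rfl, ?_⟩
    unfold c
    rw [← coord_succ]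
    exact hy
  · have h1 := hin l m h (by omega) hy.symm
    have h2 : m = l + 1 := by omega
    subst h2
    refine Or.inr ⟨rfl, ?_⟩
    unfold c
    rw [← coord_succ]
    exact hy.symm

/-- exchanging an innermost diagonal for the missing boundary edge behind it -/
lemma exchange {G : SimpleGraph (ZMod n)} {d : ℕ} (hd : 2 ≤ d) (hV : IsV d G) (u : ZMod n) {k j : ℕ}
    (hk : 2 ≤ k) (hkn : k + 2 ≤ n) (hadj : G.Adj u (u + (k : ZMod n)))
    (hin : ∀ i j : ℕ, i < j → j ≤ k → G.Adj (u + (i : ZMod n)) (u + (j : ZMod n)) →
      j = i + 1 ∨ (i = 0 ∧ j = k)) (hj : j < k)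
    (hm : ∀ m < k, (c (u + (m : ZMod n)) ∈ G.edgeSet ↔ m ≠ j)) :
    ∃ G' : SimpleGraph (ZMod n), IsV d G' ∧
      E G' = insert (c (u + (j : ZMod n))) (E G \ {s(u, u + (k : ZMod n))}) := by
  classical
  obtain ⟨hT, hN, hdeg⟩ := hV
  have h0 : u + ((0 : ℕ) : ZMod n) = u := by simp
  set g : Sym2 (ZMod n) := s(u, u + (k : ZMod n)) with hg
  set e : Sym2 (ZMod n) := c (u + (j : ZMod n)) with he
  have hgE : g ∈ E G := by rw [mem_E]; exact hadj
  have heE : e ∉ E G := by
    rw [mem_E, he, hm j hj]
    simp
  set s : Finset (Sym2 (ZMod n)) := insert e (E G \ {g}) with hs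
  have hsd : ∀ x ∈ s, ¬ x.IsDiag := by
    intro x hx
    rw [hs, Finset.mem_insert, Finset.mem_sdiff] at hx
    rcases hx with rfl | hx
    · exact c_not_diag (by omega) _
    · exact E_not_diag hx.1
  set G' : SimpleGraph (ZMod n) := fromEdgeSet (s : Set (Sym2 (ZMod n))) with hG'
  have hE' : E G' = s := E_fromEdgeSet hsd
  have hadj' : ∀ a b, G'.Adj a b ↔ s(a, b) = e ∨ (G.Adj a b ∧ s(a, b) ≠ g) := by
    intro a b
    rw [← mem_edgeSet, ← mem_E, hE', hs, Finset.mem_insert, Finset.mem_sdiff, mem_E, mem_edgeSet,
      Finset.mem_singleton]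
  have hcmem : ∀ m < k, c (u + (m : ZMod n)) ∈ G'.edgeSet := by
    intro m hmk
    rw [← mem_E, hE', hs, Finset.mem_insert, Finset.mem_sdiff, mem_E, Finset.mem_singleton]
    by_cases hmj : m = j
    · left; rw [hmj, he]
    · right
      refine ⟨(hm m hmk).2 hmj, ?_⟩
      unfold c
      rw [← coord_succ, hg]
      intro hh
      have hh' : s(u + (m : ZMod n), u + ((m + 1 : ℕ) : ZMod n)) =
            s(u + ((0 : ℕ) : ZMod n), u + (k : ZMod n)) := by rw [hh, h0]
      have := edge_eq u (by omega) (by omega) (by omega) (by omega) (by omega) (by omega) hh'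
      omega
  have hreach : ∀ i l : ℕ, i ≤ l → l ≤ k →
      G'.Reachable (u + (i : ZMod n)) (u + (l : ZMod n)) := by
    intro i l hil hlk
    exact reach_bd u hil fun m _ h2 => hcmem m (by omega)
  have hconn : G'.Connected := by
    haveI : Nonempty (ZMod n) := ⟨u⟩
    refine ⟨fun x y => ?_⟩
    have hxy := hT.connected.preconnected x y
    obtain ⟨w⟩ := hxy
    induction w with
    | nil => exact Reachable.refl _
    | @cons a b c' hab _ ih =>
      refine Reachable.trans ?_ ih
      by_cases hgg : s(a, b) = g
      · have h1 := hreach 0 k (by omega) le_rfl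
        rw [h0] at h1
        rw [hg, Sym2.eq_iff] at hgg
        rcases hgg with ⟨rfl, rfl⟩ | ⟨rfl, rfl⟩
        · exact h1
        · exact h1.symm
      · exact Adj.reachable ((hadj' a b).2 (Or.inr ⟨hab, hgg⟩))
  have hcard : (E G').card + 1 = n := by
    rw [hE', hs, Finset.card_insert_of_notMem, Finset.card_sdiff_of_subset, Finset.card_singleton]
    · have h1 := (tree_iff.1 hT).2
      have h2 : 0 < (E G).card := Finset.card_pos.2 ⟨g, hgE⟩
      omega
    · simpa using hgE
    · rw [Finset.mem_sdiff]
      exact fun h => heE h.1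
  refine ⟨G', ⟨tree_iff.2 ⟨hconn, hcard⟩, ?_, ?_⟩, hE'⟩
  · intro a b x y hab hxy hX
    have hb := x_not_bd hX
    rcases (hadj' a b).1 hab with h1 | h1
    · exact hb.1 (h1 ▸ he ▸ c_mem _)
    · rcases (hadj' x y).1 hxy with h2 | h2
      · exact hb.2 (h2 ▸ he ▸ c_mem _)
      · exact hN a b x y h1.1 h2.1 hX
  · intro v
    have hne1 : u + (j : ZMod n) ≠ u + ((j + 1 : ℕ) : ZMod n) := by
      intro h
      have := coord_inj u (by omega) (by omega) h
      omega
    by_cases hv1 : v = u + (j : ZMod n)
    · by_cases hj0 : j = 0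
      · subst hj0
        rw [h0] at hv1
        subst hv1
        have hsub : G'.neighborSet v ⊆ insert (v + ((1 : ℕ) : ZMod n)) (G.neighborSet v \ {v + (k : ZMod n)}) := by
          intro y hy
          rw [mem_neighborSet, hadj'] at hy
          rcases hy with h | h
          · left
            rw [he] at h
            unfold c at h
            rw [h0, Sym2.eq_iff] at h
            rcases h with ⟨_, h⟩ | ⟨h1, h2⟩
            · simpa using h
            · exfalso
              have := h1.symm
              apply hne1
              rw [h0]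
              simpa using h1
          · right
            refine ⟨h.1, ?_⟩
            rintro rfl
            exact h.2 (by rw [hg])
        have h1 := Set.ncard_le_ncard hsub (Set.toFinite _)
        have h2 := Set.ncard_insert_le (v + ((1 : ℕ) : ZMod n)) (G.neighborSet v \ {v + (k : ZMod n)})
        have h3 : (G.neighborSet v \ {v + (k : ZMod n)}).ncard + 1 = (G.neighborSet v).ncard :=
          Set.ncard_sdiff_singleton_add_one hadj (Set.toFinite _)
        have := hdeg v
        omega
      · subst hv1
        have hsub : G'.neighborSet (u + (j : ZMod n)) ⊆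
            {u + ((j - 1 : ℕ) : ZMod n), u + ((j + 1 : ℕ) : ZMod n)} := by
          intro y hy
          rw [mem_neighborSet, hadj'] at hy
          rcases hy with h | h
          · right
            rw [he] at h
            unfold c at h
            rw [← coord_succ, Sym2.eq_iff] at h
            rcases h with ⟨_, h⟩ | ⟨h1, h2⟩
            · simpa using h
            · exact absurd h1 hne1
          · rcases inner_nb hN u (by omega) hadj hin (by omega) hj h.1 with h1 | h1
            · exfalso
              exact ((hm j hj).1 h1.2) rfl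
            · left
              exact h1.1
        have h1 := Set.ncard_le_ncard hsub (Set.toFinite _)
        have h2 := Set.ncard_insert_le (u + ((j - 1 : ℕ) : ZMod n)) {u + ((j + 1 : ℕ) : ZMod n)}
        rw [Set.ncard_singleton] at h2
        omega
    · by_cases hv2 : v = u + ((j + 1 : ℕ) : ZMod n)
      · by_cases hjk : j + 1 = k
        · subst hv2
          have hsub : G'.neighborSet (u + ((j + 1 : ℕ) : ZMod n)) ⊆
              insert (u + (j : ZMod n)) (G.neighborSet (u + ((j + 1 : ℕ) : ZMod n)) \ {u}) := by
            intro y hy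
            rw [mem_neighborSet, hadj'] at hy
            rcases hy with h | h
            · left
              rw [he] at h
              unfold c at h
              rw [← coord_succ, Sym2.eq_iff] at h
              rcases h with ⟨h1, h⟩ | ⟨h1, h2⟩
              · exact absurd h1.symm hne1
              · exact h2
            · right
              refine ⟨h.1, ?_⟩
              rintro rfl
              apply h.2
              rw [hg, ← hjk, Sym2.eq_swap]
          have h1 := Set.ncard_le_ncard hsub (Set.toFinite _)
          have h2 := Set.ncard_insert_le (u + (j : ZMod n))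
            (G.neighborSet (u + ((j + 1 : ℕ) : ZMod n)) \ {u})
          have h3 : (G.neighborSet (u + ((j + 1 : ℕ) : ZMod n)) \ {u}).ncard + 1 =
              (G.neighborSet (u + ((j + 1 : ℕ) : ZMod n))).ncard :=
            Set.ncard_sdiff_singleton_add_one (by rw [mem_neighborSet, hjk]; exact hadj.symm)
              (Set.toFinite _)
          have := hdeg (u + ((j + 1 : ℕ) : ZMod n))
          omega
        · subst hv2
          have hsub : G'.neighborSet (u + ((j + 1 : ℕ) : ZMod n)) ⊆
              {u + (j : ZMod n), u + ((j + 1 + 1 : ℕ) : ZMod n)} := by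
            intro y hy
            rw [mem_neighborSet, hadj'] at hy
            rcases hy with h | h
            · left
              rw [he] at h
              unfold c at h
              rw [← coord_succ, Sym2.eq_iff] at h
              rcases h with ⟨h1, h⟩ | ⟨h1, h2⟩
              · exact absurd h1.symm hne1
              · exact h2
            · rcases inner_nb hN u (by omega) hadj hin (by omega) (by omega) h.1 with h1 | h1
              · right
                exact h1.1
              · exfalso
                simp only [Nat.add_sub_cancel] at h1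
                exact ((hm j hj).1 h1.2) rfl
          have h1 := Set.ncard_le_ncard hsub (Set.toFinite _)
          have h2 := Set.ncard_insert_le (u + (j : ZMod n)) {u + ((j + 1 + 1 : ℕ) : ZMod n)}
          rw [Set.ncard_singleton] at h2
          omega
      · have hsub : G'.neighborSet v ⊆ G.neighborSet v := by
          intro y hy
          rw [mem_neighborSet, hadj'] at hy
          rcases hy with h | h
          · exfalso
            rw [he] at h
            unfold c at h
            rw [← coord_succ, Sym2.eq_iff] at h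
            rcases h with ⟨h1, h⟩ | ⟨h1, h2⟩
            · exact hv1 h1
            · exact hv2 h1
          · exact h.1
        exact (Set.ncard_le_ncard hsub (Set.toFinite _)).trans (hdeg v)

/-- a diagonal is an edge which is not a boundary edge -/
lemma diag_coord {g : Sym2 (ZMod n)} (hg : g ∉ bd n) (hd : ¬ g.IsDiag) (u : ZMod n) :
    ∃ i j : ℕ, i + 2 ≤ j ∧ j < n ∧ ¬ (i = 0 ∧ j = n - 1) ∧
      g = s(u + (i : ZMod n), u + (j : ZMod n)) := by
  induction g using Sym2.ind with
  | _ x y =>
    obtain ⟨i, hi, rfl⟩ := exists_coord u x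
    obtain ⟨j, hj, rfl⟩ := exists_coord u y
    rw [Sym2.mk_isDiag_iff] at hd
    have hij : i ≠ j := fun h => hd (by rw [h])
    have key : ∀ i j : ℕ, i < j → j < n → s(u + (i : ZMod n), u + (j : ZMod n)) ∉ bd n →
        i + 2 ≤ j ∧ ¬ (i = 0 ∧ j = n - 1) := by
      intro i j hij hj h
      constructor
      · by_contra hcon
        have h1 : j = i + 1 := by omega
        subst h1
        apply h
        rw [coord_succ]
        exact c_mem _
      · rintro ⟨rfl, rfl⟩
        apply h
        rw [Sym2.eq_swap]
        have h1 : u + ((0 : ℕ) : ZMod n) = u + ((n - 1 : ℕ) : ZMod n) + 1 := by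
          rw [← coord_succ, Nat.sub_add_cancel (by omega)]
          simp
        rw [h1]
        exact c_mem _
    rcases lt_or_gt_of_ne hij with h | h
    · have := key i j h hj hg
      exact ⟨i, j, this.1, hj, this.2, rfl⟩
    · have := key j i h hi (by rw [Sym2.eq_swap]; exact hg)
      exact ⟨j, i, this.1, hi, this.2, Sym2.eq_swap⟩

end

end Pool.Agent.Helper28K9.TG
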