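import Mathlib
import Pool.Agent.Helper28K9.TG.Exch

/-!
# Plane spanning trees of a convex polygon: two exchanges, trees with at most one diagonal
-/

set_option autoImplicit false
set_option linter.unusedSectionVars false
set_option linter.unusedVariables false

namespace Pool.Agent.Helper28K9.TG

open SimpleGraph

section

variable {n : ℕ} [NeZero n]

/-- A tree with at least two diagonals has two exchanges of diagonals for boundary edges, with
different diagonals and different boundary edges. -/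
lemma two_exchanges {G : SimpleGraph (ZMod n)} {d : ℕ} (hd : 2 ≤ d) (hV : IsV d G)
    {g₁ g₂ : Sym2 (ZMod n)} (hg₁ : g₁ ∈ E G) (hg₂ : g₂ ∈ E G) (hb₁ : g₁ ∉ bd n) (hb₂ : g₂ ∉ bd n)
    (hne : g₁ ≠ g₂) :
    ∃ (p q e f : Sym2 (ZMod n)) (G₁ G₂ : SimpleGraph (ZMod n)), p ≠ q ∧ e ≠ f ∧
      p ∈ E G ∧ q ∈ E G ∧ p ∉ bd n ∧ q ∉ bd n ∧ e ∈ bd n ∧ f ∈ bd n ∧ e ∉ E G ∧ f ∉ E G ∧
      IsV d G₁ ∧ IsV d G₂ ∧ E G₁ = insert e (E G \ {p}) ∧ E G₂ = insert f (E G \ {q}) := by
  classical
  obtain ⟨hT, hN, hdeg⟩ := id hV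
  -- the shortest diagonal
  have hex : ∃ k : ℕ, ∃ u : ZMod n, 2 ≤ k ∧ k + 2 ≤ n ∧ G.Adj u (u + (k : ZMod n)) := by
    obtain ⟨i, j, hij, hj, hnot, he⟩ := diag_coord hb₁ (E_not_diag hg₁) (0 : ZMod n)
    refine ⟨j - i, 0 + (i : ZMod n), by omega, by omega, ?_⟩
    have h1 : (0 : ZMod n) + (i : ZMod n) + ((j - i : ℕ) : ZMod n) = 0 + (j : ZMod n) := by
      rw [← coord_add]
      congr 2
      omega
    rw [h1]
    rw [he, mem_E] at hg₁
    exact hg₁
  set k := Nat.find hex with hkdef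
  obtain ⟨u, hk2, hkn, hadj⟩ := Nat.find_spec hex
  rw [← hkdef] at hk2 hkn hadj
  have hmin : ∀ (v : ZMod n) (l : ℕ), 2 ≤ l → l + 2 ≤ n → G.Adj v (v + (l : ZMod n)) → k ≤ l := by
    intro v l h1 h2 h3
    exact Nat.find_min' hex ⟨v, h1, h2, h3⟩
  have hin : ∀ i j : ℕ, i < j → j ≤ k → G.Adj (u + (i : ZMod n)) (u + (j : ZMod n)) →
      j = i + 1 ∨ (i = 0 ∧ j = k) := by
    intro i j hij hjk h
    by_contra hcon
    push Not at hcon
    have h1 : u + (i : ZMod n) + ((j - i : ℕ) : ZMod n) = u + (j : ZMod n) := by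
      rw [← coord_add]
      congr 2
      omega
    have h2 := hmin (u + (i : ZMod n)) (j - i) (by omega) (by omega) (by rw [h1]; exact h)
    have h3 := hcon.2
    omega
  obtain ⟨j₁, hj₁, hm₁⟩ := side hT hN u hk2 (by omega) hadj hin
  obtain ⟨G₁, hG₁, hE₁⟩ := exchange hd hV u hk2 hkn hadj hin hj₁ hm₁
  have h0 : u + ((0 : ℕ) : ZMod n) = u := by simp
  -- the second one
  set v : ZMod n := u + (k : ZMod n) with hv
  have hvu : ∀ m : ℕ, v + ((n - k + m : ℕ) : ZMod n) = u + (m : ZMod n) := by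
    intro m
    rw [hv, ← coord_add]
    have : k + (n - k + m) = n + m := by omega
    rw [this, coord_add, coord_n]
  have hv0 : v + ((0 : ℕ) : ZMod n) = v := by simp
  have hvn : v + ((n - k : ℕ) : ZMod n) = u := by
    have := hvu 0
    rw [Nat.add_zero] at this
    rw [this, h0]
  have hadj' : G.Adj (v + ((0 : ℕ) : ZMod n)) (v + ((n - k : ℕ) : ZMod n)) := by
    rw [hv0, hvn]
    exact hadj.symm
  -- another diagonal
  obtain ⟨g, hgE, hgb, hgne⟩ : ∃ g, g ∈ E G ∧ g ∉ bd n ∧ g ≠ s(u, u + (k : ZMod n)) := by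
    by_cases h : g₁ = s(u, u + (k : ZMod n))
    · exact ⟨g₂, hg₂, hb₂, fun h' => hne (h.trans h'.symm)⟩
    · exact ⟨g₁, hg₁, hb₁, h⟩
  have hex2 : ∃ l : ℕ, ∃ a : ℕ, 2 ≤ l ∧ a + l ≤ n - k ∧ ¬ (a = 0 ∧ l = n - k) ∧
      G.Adj (v + (a : ZMod n)) (v + ((a + l : ℕ) : ZMod n)) := by
    obtain ⟨a, b, hab, hb, hnot, he⟩ := diag_coord hgb (E_not_diag hgE) v
    have hGab : G.Adj (v + (a : ZMod n)) (v + (b : ZMod n)) := by
      rw [he, mem_E] at hgE
      exact hgE
    have hbk : b ≤ n - k := by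
      by_contra hbk
      push Not at hbk
      obtain ⟨b', hb'⟩ : ∃ b', b = n - k + b' := ⟨b - (n - k), by omega⟩
      by_cases ha : n - k ≤ a
      · obtain ⟨a', ha'⟩ : ∃ a', a = n - k + a' := ⟨a - (n - k), by omega⟩
        rw [ha', hb', hvu, hvu] at hGab
        rcases hin a' b' (by omega) (by omega) hGab with h | h
        · omega
        · omega
      · push Not at ha
        by_cases ha0 : a = 0
        · subst ha0
          rw [hv0, hb', hvu, hv] at hGab
          rcases hin b' k (by omega) le_rfl hGab.symm with h | h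
          · omega
          · omega
        · exact nc_coord hN v (i := 0) (j := a) (k := n - k) (l := b) (by omega) ha hbk hb hadj' hGab
    refine ⟨b - a, a, by omega, by omega, ?_, ?_⟩
    · rintro ⟨rfl, h2⟩
      apply hgne
      rw [he, show b = n - k by omega, hvn, hv0, Sym2.eq_swap]
    · rw [show a + (b - a) = b by omega]
      exact hGab
  set l := Nat.find hex2 with hldef
  obtain ⟨a, hl2, hal, hnot, hadj2⟩ := Nat.find_spec hex2
  rw [← hldef] at hl2 hal hnot hadj2
  have hmin2 : ∀ (a' l' : ℕ), 2 ≤ l' → a' + l' ≤ n - k → ¬ (a' = 0 ∧ l' = n - k) →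
      G.Adj (v + (a' : ZMod n)) (v + ((a' + l' : ℕ) : ZMod n)) → l ≤ l' := by
    intro a' l' h1 h2 h3 h4
    exact Nat.find_min' hex2 ⟨a', h1, h2, h3, h4⟩
  set w : ZMod n := v + (a : ZMod n) with hw
  have hwc : ∀ m : ℕ, w + (m : ZMod n) = v + ((a + m : ℕ) : ZMod n) := by
    intro m
    rw [hw, coord_add]
  have hadjw : G.Adj w (w + (l : ZMod n)) := by
    rw [hwc]
    exact hadj2
  have hin2 : ∀ i j : ℕ, i < j → j ≤ l → G.Adj (w + (i : ZMod n)) (w + (j : ZMod n)) →
      j = i + 1 ∨ (i = 0 ∧ j = l) := by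
    intro i j hij hjl h
    by_contra hcon
    push Not at hcon
    have h3 := hcon.2
    rw [hwc, hwc] at h
    have h2 := hmin2 (a + i) (j - i) (by omega) (by omega) (by omega)
      (by rw [show a + i + (j - i) = a + j by omega]; exact h)
    omega
  obtain ⟨j₂, hj₂, hm₂⟩ := side hT hN w hl2 (by omega) hadjw hin2
  obtain ⟨G₂, hG₂, hE₂⟩ := exchange hd hV w hl2 (by omega) hadjw hin2 hj₂ hm₂
  refine ⟨s(u, u + (k : ZMod n)), s(w, w + (l : ZMod n)), c (u + (j₁ : ZMod n)),
    c (w + (j₂ : ZMod n)), G₁, G₂, ?_, ?_, ?_, ?_, ?_, ?_, c_mem _, c_mem _, ?_, ?_, hG₁, hG₂, hE₁, hE₂⟩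
  · intro h
    have h' : s(v + ((0 : ℕ) : ZMod n), v + ((n - k : ℕ) : ZMod n)) =
        s(v + (a : ZMod n), v + ((a + l : ℕ) : ZMod n)) := by
      rw [hv0, hvn, Sym2.eq_swap, hv, h, hwc]
    have := edge_eq v (by omega) (by omega) (by omega) (by omega) (by omega) (by omega) h'
    omega
  · intro h
    have h1 := c_inj (by omega) h
    rw [← hvu, hwc] at h1
    have := coord_inj v (by omega) (by omega) h1
    omega
  · rw [mem_E]; exact hadj
  · rw [mem_E]; exact hadjw
  · exact chord_not_mem_bd u hk2 hkn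
  · exact chord_not_mem_bd w hl2 (by omega)
  · rw [mem_E, hm₁ j₁ hj₁]; simp
  · rw [mem_E, hm₂ j₂ hj₂]; simp

/-- the boundary paths -/
lemma exists_B (hn : 3 ≤ n) {d : ℕ} (hd : 2 ≤ d) (i : ZMod n) :
    ∃ G : SimpleGraph (ZMod n), IsV d G ∧ E G = bd n \ {c i} := by
  classical
  set s : Finset (Sym2 (ZMod n)) := bd n \ {c i} with hs
  have hsd : ∀ x ∈ s, ¬ x.IsDiag := by
    intro x hx
    rw [hs, Finset.mem_sdiff, mem_bd] at hx
    obtain ⟨⟨j, rfl⟩, _⟩ := hx
    exact c_not_diag (by omega) _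
  set G : SimpleGraph (ZMod n) := fromEdgeSet (s : Set (Sym2 (ZMod n))) with hG
  have hE : E G = s := E_fromEdgeSet hsd
  have hadj : ∀ a b, G.Adj a b ↔ s(a, b) ∈ bd n ∧ s(a, b) ≠ c i := by
    intro a b
    rw [← mem_edgeSet, ← mem_E, hE, hs, Finset.mem_sdiff, Finset.mem_singleton]
  have hconn : G.Connected := by
    have : Nonempty (ZMod n) := ⟨i⟩
    have hr : ∀ x, G.Reachable (i + ((1 : ℕ) : ZMod n)) x := by
      intro x
      obtain ⟨m, hm, rfl⟩ := exists_coord (i + ((1 : ℕ) : ZMod n)) x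
      have := reach_bd (G := G) (i + ((1 : ℕ) : ZMod n)) (Nat.zero_le m) ?_
      · simpa using this
      · intro l _ hl
        rw [← mem_E, hE, hs, Finset.mem_sdiff, Finset.mem_singleton]
        refine ⟨c_mem _, fun h => ?_⟩
        have h1 := c_inj (by omega) h
        rw [← coord_add] at h1
        have h2 : i + ((1 + l : ℕ) : ZMod n) = i + ((0 : ℕ) : ZMod n) := by simpa using h1
        have := coord_inj i (by omega) (by omega) h2
        omega
    exact ⟨fun x y => (hr x).symm.trans (hr y)⟩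
  have hcard : (E G).card + 1 = n := by
    rw [hE, hs, Finset.card_sdiff_of_subset (by simpa using c_mem i), card_bd hn,
      Finset.card_singleton]
    omega
  refine ⟨G, ⟨tree_iff.2 ⟨hconn, hcard⟩, ?_, ?_⟩, hE⟩
  · intro a b x y hab hxy hX
    exact (x_not_bd hX).1 ((hadj a b).1 hab).1
  · intro v
    have hsub : G.neighborSet v ⊆ {v + 1, v - 1} := by
      intro y hy
      rw [mem_neighborSet, hadj] at hy
      obtain ⟨j, hj⟩ := mem_bd.1 hy.1
      unfold c at hj
      rw [Sym2.eq_iff] at hj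
      rcases hj with ⟨rfl, rfl⟩ | ⟨rfl, rfl⟩
      · left; rfl
      · right; simp
    have h1 := Set.ncard_le_ncard hsub (Set.toFinite _)
    have h2 := Set.ncard_insert_le (v + 1) {v - 1}
    rw [Set.ncard_singleton] at h2
    omega

/-- trees with one diagonal -/
lemma exists_one {d : ℕ} (hd : 3 ≤ d) (u : ZMod n) {k a b : ℕ} (hk : 2 ≤ k) (hkn : k + 2 ≤ n)
    (ha : a < k) (hkb : k ≤ b) (hb : b < n) :
    ∃ G : SimpleGraph (ZMod n), IsV d G ∧
      E G = insert s(u, u + (k : ZMod n)) (bd n \ {c (u + (a : ZMod n)), c (u + (b : ZMod n))}) := by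
  classical
  have h0 : u + ((0 : ℕ) : ZMod n) = u := by simp
  set g : Sym2 (ZMod n) := s(u, u + (k : ZMod n)) with hg
  have hgb : g ∉ bd n := chord_not_mem_bd u hk hkn
  set s : Finset (Sym2 (ZMod n)) := insert g (bd n \ {c (u + (a : ZMod n)), c (u + (b : ZMod n))}) with hs
  have hsd : ∀ x ∈ s, ¬ x.IsDiag := by
    intro x hx
    rw [hs, Finset.mem_insert, Finset.mem_sdiff, mem_bd] at hx
    rcases hx with rfl | ⟨⟨j, rfl⟩, _⟩
    · rw [hg, Sym2.mk_isDiag_iff]
      intro h
      have h' : u + ((0 : ℕ) : ZMod n) = u + (k : ZMod n) := by rw [h0]; exact h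
      have := coord_inj u (by omega) (by omega) h'
      omega
    · exact c_not_diag (by omega) _
  set G : SimpleGraph (ZMod n) := fromEdgeSet (s : Set (Sym2 (ZMod n))) with hG
  have hE : E G = s := E_fromEdgeSet hsd
  have hadj : ∀ x y, G.Adj x y ↔ s(x, y) = g ∨ (s(x, y) ∈ bd n ∧ s(x, y) ≠ c (u + (a : ZMod n)) ∧
      s(x, y) ≠ c (u + (b : ZMod n))) := by
    intro x y
    rw [← mem_edgeSet, ← mem_E, hE, hs, Finset.mem_insert, Finset.mem_sdiff, Finset.mem_insert,
      Finset.mem_singleton, not_or]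
  have hcm : ∀ m < n, m ≠ a → m ≠ b → c (u + (m : ZMod n)) ∈ G.edgeSet := by
    intro m hm hma hmb
    rw [← mem_E, hE, hs, Finset.mem_insert, Finset.mem_sdiff, Finset.mem_insert,
      Finset.mem_singleton, not_or]
    right
    refine ⟨c_mem _, fun h => ?_, fun h => ?_⟩
    · exact hma (coord_inj u hm (by omega) (c_inj (by omega) h))
    · exact hmb (coord_inj u hm (by omega) (c_inj (by omega) h))
  have hgadj : G.Adj u (u + (k : ZMod n)) := (hadj _ _).2 (Or.inl hg.symm)
  have hr : ∀ i j : ℕ, i ≤ j → j ≤ n → (∀ m, i ≤ m → m < j → m ≠ a ∧ m ≠ b) →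
      G.Reachable (u + (i : ZMod n)) (u + (j : ZMod n)) := by
    intro i j hij hjn h
    exact reach_bd u hij fun m h1 h2 => hcm m (by omega) (h m h1 h2).1 (h m h1 h2).2
  have hall : ∀ x, G.Reachable u x := by
    intro x
    obtain ⟨m, hm, rfl⟩ := exists_coord u x
    by_cases h1 : m ≤ a
    · have := hr 0 m (by omega) (by omega) (fun l _ hl => by omega)
      rwa [h0] at this
    · by_cases h2 : m ≤ k
      · have := hr m k h2 (by omega) (fun l hl1 hl2 => by omega)
        exact hgadj.reachable.trans this.symm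
      · by_cases h3 : m ≤ b
        · have := hr k m (by omega) (by omega) (fun l hl1 hl2 => by omega)
          exact hgadj.reachable.trans this
        · have := hr m n (by omega) le_rfl (fun l hl1 hl2 => by omega)
          rw [coord_n] at this
          exact this.symm
  have hconn : G.Connected := by
    have : Nonempty (ZMod n) := ⟨u⟩
    exact ⟨fun x y => (hall x).symm.trans (hall y)⟩
  have hab : c (u + (a : ZMod n)) ≠ c (u + (b : ZMod n)) := by
    intro h
    have := coord_inj u (by omega) (by omega) (c_inj (by omega) h)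
    omega
  have hcard : (E G).card + 1 = n := by
    rw [hE, hs, Finset.card_insert_of_notMem, Finset.card_sdiff_of_subset, card_bd (by omega),
      Finset.card_pair hab]
    · omega
    · intro x hx
      rw [Finset.mem_insert, Finset.mem_singleton] at hx
      rcases hx with rfl | rfl <;> exact c_mem _
    · rw [Finset.mem_sdiff]
      exact fun h => hgb h.1
  refine ⟨G, ⟨tree_iff.2 ⟨hconn, hcard⟩, ?_, ?_⟩, hE⟩
  · intro x y z w hxy hzw hX
    have hb := x_not_bd hX
    rcases (hadj x y).1 hxy with h1 | h1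
    · rcases (hadj z w).1 hzw with h2 | h2
      · exact x_ne hX (h1.trans h2.symm)
      · exact hb.2 h2.1
    · exact hb.1 h1.1
  · intro v
    have hsub : G.neighborSet v ⊆ {v + 1, v - 1} ∪ {y | s(v, y) = g} := by
      intro y hy
      rw [mem_neighborSet, hadj] at hy
      rcases hy with h | h
      · right; exact h
      · left
        obtain ⟨j, hj⟩ := mem_bd.1 h.1
        unfold c at hj
        rw [Sym2.eq_iff] at hj
        rcases hj with ⟨rfl, rfl⟩ | ⟨rfl, rfl⟩
        · left; rfl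
        · right; simp
    have h3 : ({y | s(v, y) = g} : Set (ZMod n)).ncard ≤ 1 := by
      rw [Set.ncard_le_one_iff]
      intro x y hx hy
      rw [Set.mem_setOf_eq] at hx hy
      rw [← hy] at hx
      exact Sym2.congr_right.1 hx
    have h1 := Set.ncard_le_ncard hsub (Set.toFinite _)
    have h2 := Set.ncard_union_le {v + 1, v - 1} {y | s(v, y) = g}
    have h4 := Set.ncard_insert_le (v + 1) {v - 1}
    rw [Set.ncard_singleton] at h4
    omega

/-- a tree without diagonals is a boundary path -/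
lemma zero_diag {G : SimpleGraph (ZMod n)} (hn : 3 ≤ n) (hT : G.IsTree) (h : E G ⊆ bd n) :
    ∃ i, E G = bd n \ {c i} := by
  classical
  have h1 := (tree_iff.1 hT).2
  have h2 : (bd n \ E G).card = 1 := by
    rw [Finset.card_sdiff_of_subset h, card_bd hn]
    omega
  obtain ⟨e, he⟩ := Finset.card_eq_one.1 h2
  have he' : e ∈ bd n \ E G := by rw [he]; simp
  obtain ⟨i, rfl⟩ := mem_bd.1 (Finset.mem_sdiff.1 he').1
  refine ⟨i, ?_⟩
  rw [← he, Finset.sdiff_sdiff_eq_self h]

/-- a tree with exactly one diagonal -/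
lemma one_diag {G : SimpleGraph (ZMod n)} (hT : G.IsTree) (hN : NC G) {u : ZMod n} {k : ℕ}
    (hk : 2 ≤ k) (hkn : k + 2 ≤ n) (hg : s(u, u + (k : ZMod n)) ∈ E G)
    (h : ∀ e ∈ E G, e ∉ bd n → e = s(u, u + (k : ZMod n))) :
    ∃ a b : ℕ, a < k ∧ k ≤ b ∧ b < n ∧
      E G = insert s(u, u + (k : ZMod n)) (bd n \ {c (u + (a : ZMod n)), c (u + (b : ZMod n))}) := by
  classical
  have h0 : u + ((0 : ℕ) : ZMod n) = u := by simp
  have hadj : G.Adj u (u + (k : ZMod n)) := by rw [mem_E] at hg; exact hg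
  set v : ZMod n := u + (k : ZMod n) with hv
  have hvu : ∀ m : ℕ, v + ((n - k + m : ℕ) : ZMod n) = u + (m : ZMod n) := by
    intro m
    rw [hv, ← coord_add]
    have : k + (n - k + m) = n + m := by omega
    rw [this, coord_add, coord_n]
  have hvc : ∀ m : ℕ, v + (m : ZMod n) = u + ((k + m : ℕ) : ZMod n) := by
    intro m
    rw [hv, coord_add]
  have hv0 : v + ((0 : ℕ) : ZMod n) = v := by simp
  have hvn : v + ((n - k : ℕ) : ZMod n) = u := by
    have := hvu 0
    rw [Nat.add_zero] at this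
    rw [this, h0]
  have hin1 : ∀ i j : ℕ, i < j → j ≤ k → G.Adj (u + (i : ZMod n)) (u + (j : ZMod n)) →
      j = i + 1 ∨ (i = 0 ∧ j = k) := by
    intro i j hij hjk hadj'
    by_cases hb : s(u + (i : ZMod n), u + (j : ZMod n)) ∈ bd n
    · rcases chord_mem_bd u hij (by omega) hb with h1 | h1 <;> omega
    · have h1 := h _ (by rw [mem_E]; exact hadj') hb
      have h2 : s(u + (i : ZMod n), u + (j : ZMod n)) =
          s(u + ((0 : ℕ) : ZMod n), u + (k : ZMod n)) := by rw [h1, h0]
      have := edge_eq u (by omega) (by omega) (by omega) (by omega) hij (by omega) h2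
      omega
  have hin2 : ∀ i j : ℕ, i < j → j ≤ n - k → G.Adj (v + (i : ZMod n)) (v + (j : ZMod n)) →
      j = i + 1 ∨ (i = 0 ∧ j = n - k) := by
    intro i j hij hjk hadj'
    by_cases hb : s(v + (i : ZMod n), v + (j : ZMod n)) ∈ bd n
    · rcases chord_mem_bd v hij (by omega) hb with h1 | h1 <;> omega
    · have h1 := h _ (by rw [mem_E]; exact hadj') hb
      have h2 : s(v + (i : ZMod n), v + (j : ZMod n)) =
          s(v + ((0 : ℕ) : ZMod n), v + ((n - k : ℕ) : ZMod n)) := by
        rw [h1, hv0, hvn, Sym2.eq_swap]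
      have := edge_eq v (by omega) (by omega) (by omega) (by omega) hij (by omega) h2
      omega
  obtain ⟨a, ha, hma⟩ := side hT hN u hk (by omega) hadj hin1
  obtain ⟨b, hb, hmb⟩ := side hT hN v (k := n - k) (by omega) (by omega)
    (by rw [hvn]; exact hadj.symm) hin2
  refine ⟨a, k + b, ha, by omega, by omega, ?_⟩
  ext e
  rw [Finset.mem_insert, Finset.mem_sdiff, Finset.mem_insert, Finset.mem_singleton, not_or]
  have hcase : ∀ m < n, (c (u + (m : ZMod n)) ∈ E G ↔ m ≠ a ∧ m ≠ k + b) := by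
    intro m hm
    rw [mem_E]
    by_cases hmk : m < k
    · rw [hma m hmk]
      constructor
      · intro h; exact ⟨h, by omega⟩
      · intro h; exact h.1
    · have h1 := hmb (m - k) (by omega)
      rw [hvc, show k + (m - k) = m by omega] at h1
      rw [h1]
      constructor
      · intro h; exact ⟨by omega, by omega⟩
      · intro h; have := h.2; omega
  constructor
  · intro he
    by_cases heb : e ∈ bd n
    · right
      refine ⟨heb, ?_⟩
      obtain ⟨x, rfl⟩ := mem_bd.1 heb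
      obtain ⟨m, hm, rfl⟩ := exists_coord u x
      have h1 := (hcase m hm).1 he
      refine ⟨fun h2 => h1.1 ?_, fun h2 => h1.2 ?_⟩
      · exact coord_inj u hm (by omega) (c_inj (by omega) h2)
      · exact coord_inj u hm (by omega) (c_inj (by omega) h2)
    · exact Or.inl (h e he heb)
  · rintro (rfl | ⟨h1, h2, h3⟩)
    · exact hg
    · obtain ⟨x, rfl⟩ := mem_bd.1 h1
      obtain ⟨m, hm, rfl⟩ := exists_coord u x
      rw [hcase m hm]
      exact ⟨fun h => h2 (by rw [h]), fun h => h3 (by rw [h])⟩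

end

end Pool.Agent.Helper28K9.TG
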