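import Mathlib
import Pool.Agent.Helper28K9.TG.Two

/-!
# Plane spanning trees of a convex polygon: the clique of boundary paths
-/

set_option autoImplicit false
set_option linter.unusedSectionVars false
set_option linter.unusedVariables false

namespace Pool.Agent.Helper28K9.TG

open SimpleGraph

section

variable {n : ℕ} [NeZero n]

/-- adjacency of two trees: `n - 2` common edges -/
def A (G H : SimpleGraph (ZMod n)) : Prop := G ≠ H ∧ (E G ∩ E H).card + 2 = n

lemma A_def {G H : SimpleGraph (ZMod n)} :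
    A G H ↔ G ≠ H ∧ (E G ∩ E H).card + 2 = n := Iff.rfl

lemma A_symm {G H : SimpleGraph (ZMod n)} (h : A G H) : A H G := by
  classical
  rw [A_def] at h ⊢
  exact ⟨h.1.symm, by rw [Finset.inter_comm]; exact h.2⟩

lemma A_iff {G H : SimpleGraph (ZMod n)} (hG : G.IsTree)
    (hn : 2 ≤ n) : A G H ↔ (E G \ E H).card = 1 := by
  have h1 := (tree_iff.1 hG).2
  have h2 := Finset.card_sdiff_add_card_inter (E G) (E H)
  rw [A_def]
  constructor
  · rintro ⟨_, h⟩
    omega
  · intro h
    refine ⟨?_, by omega⟩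
    rintro rfl
    simp at h

lemma A_exists {G H : SimpleGraph (ZMod n)} (hG : G.IsTree)
    (hn : 2 ≤ n) (h : A G H) : ∃ e, E G \ E H = {e} :=
  Finset.card_eq_one.1 ((A_iff hG hn).1 h)

/-- if `T` is adjacent to `X` and `Y` and does not contain `X ∩ Y` then `T` is contained in
`X ∪ Y` -/
lemma sub_union {X Y T : SimpleGraph (ZMod n)} (hn : 2 ≤ n)
    (hX : X.IsTree) (hY : Y.IsTree) (hT : T.IsTree) (hXY : A X Y) (hTX : A T X) (hTY : A T Y)
    (h : ¬ E X ∩ E Y ⊆ E T) :
    ∃ e ∈ E X ∩ E Y, E T = (E X ∪ E Y) \ {e} := by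
  have cX := (tree_iff.1 hX).2
  have cY := (tree_iff.1 hY).2
  have cT := (tree_iff.1 hT).2
  obtain ⟨e, he, heT⟩ := Finset.not_subset.1 h
  rw [Finset.mem_inter] at he
  obtain ⟨x, hx⟩ := A_exists hX hn (A_symm hTX)
  obtain ⟨y, hy⟩ := A_exists hY hn (A_symm hTY)
  have hex : e = x := by
    have : e ∈ E X \ E T := Finset.mem_sdiff.2 ⟨he.1, heT⟩
    rw [hx] at this
    simpa using this
  have hey : e = y := by
    have : e ∈ E Y \ E T := Finset.mem_sdiff.2 ⟨he.2, heT⟩
    rw [hy] at this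
    simpa using this
  subst hex
  subst hey
  refine ⟨e, Finset.mem_inter.2 he, ?_⟩
  have hsub : (E X ∪ E Y) \ {e} ⊆ E T := by
    intro f hf
    rw [Finset.mem_sdiff, Finset.mem_union, Finset.mem_singleton] at hf
    by_contra hfT
    rcases hf.1 with h1 | h1
    · have : f ∈ E X \ E T := Finset.mem_sdiff.2 ⟨h1, hfT⟩
      rw [hx, Finset.mem_singleton] at this
      exact hf.2 this
    · have : f ∈ E Y \ E T := Finset.mem_sdiff.2 ⟨h1, hfT⟩
      rw [hy, Finset.mem_singleton] at this
      exact hf.2 this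
  have hU : (E X ∪ E Y).card = n := by
    have h1 := (A_def.1 hXY).2
    have h2 := Finset.card_union_add_card_inter (E X) (E Y)
    omega
  symm
  apply Finset.eq_of_subset_of_card_le hsub
  rw [Finset.card_sdiff_of_subset, hU, Finset.card_singleton]
  · omega
  · rw [Finset.singleton_subset_iff, Finset.mem_union]
    exact Or.inl he.1

/-- if all `U - e` are plane spanning trees then `U` is the boundary -/
lemma U_eq_bd (hn : 5 ≤ n) {U : Finset (Sym2 (ZMod n))}
    (hU : U.card = n)
    (h : ∀ e ∈ U, ∃ G : SimpleGraph (ZMod n), G.IsTree ∧ NC G ∧ E G = U \ {e}) : U = bd n := by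
  classical
  have hsub : U ⊆ bd n := by
    by_contra hcon
    obtain ⟨g₀, hg₀, hgb₀⟩ := Finset.not_subset.1 hcon
    have hnd : ∀ g ∈ U, ¬ g.IsDiag := by
      intro g hg
      obtain ⟨e, he, hne⟩ : ∃ e ∈ U, e ≠ g := by
        by_contra hc
        push Not at hc
        have : U ⊆ {g} := fun e he => Finset.mem_singleton.2 (hc e he)
        have := Finset.card_le_card this
        rw [Finset.card_singleton] at this
        omega
      obtain ⟨G, _, _, hE⟩ := h e he
      apply E_not_diag (G := G)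
      rw [hE, Finset.mem_sdiff, Finset.mem_singleton]
      exact ⟨hg, hne.symm⟩
    have hex : ∃ k : ℕ, ∃ u : ZMod n, 2 ≤ k ∧ k + 2 ≤ n ∧ s(u, u + (k : ZMod n)) ∈ U := by
      obtain ⟨i, j, hij, hj, hnot, he⟩ := diag_coord hgb₀ (hnd _ hg₀) (0 : ZMod n)
      refine ⟨j - i, 0 + (i : ZMod n), by omega, by omega, ?_⟩
      have h1 : (0 : ZMod n) + (i : ZMod n) + ((j - i : ℕ) : ZMod n) = 0 + (j : ZMod n) := by
        rw [← coord_add]
        congr 2
        omega
      rw [h1, ← he]
      exact hg₀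
    set k := Nat.find hex with hkdef
    obtain ⟨u, hk2, hkn, hgU⟩ := Nat.find_spec hex
    rw [← hkdef] at hk2 hkn hgU
    have hmin : ∀ (v : ZMod n) (l : ℕ), 2 ≤ l → l + 2 ≤ n → s(v, v + (l : ZMod n)) ∈ U → k ≤ l := by
      intro v l h1 h2 h3
      exact Nat.find_min' hex ⟨v, h1, h2, h3⟩
    set g : Sym2 (ZMod n) := s(u, u + (k : ZMod n)) with hg
    -- every tree `U - e`, `e ≠ g`, misses exactly one boundary edge behind `g`
    have key : ∀ e ∈ U, e ≠ g → ∃ j < k, ∀ m < k, (c (u + (m : ZMod n)) ∈ U ∧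
        c (u + (m : ZMod n)) ≠ e ↔ m ≠ j) := by
      intro e he hne
      obtain ⟨G, hT, hN, hE⟩ := h e he
      have hmem : ∀ x, x ∈ G.edgeSet ↔ x ∈ U ∧ x ≠ e := by
        intro x
        rw [← mem_E, hE, Finset.mem_sdiff, Finset.mem_singleton]
      have hadj : G.Adj u (u + (k : ZMod n)) := (hmem _).2 ⟨hgU, hne.symm⟩
      have hin : ∀ i j : ℕ, i < j → j ≤ k → G.Adj (u + (i : ZMod n)) (u + (j : ZMod n)) →
          j = i + 1 ∨ (i = 0 ∧ j = k) := by
        intro i j hij hjk hadj'
        by_contra hcon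
        push Not at hcon
        have h1 : u + (i : ZMod n) + ((j - i : ℕ) : ZMod n) = u + (j : ZMod n) := by
          rw [← coord_add]
          congr 2
          omega
        have h2 := hmin (u + (i : ZMod n)) (j - i) (by omega) (by omega)
          (by rw [h1]; exact ((hmem _).1 hadj').1)
        have h3 := hcon.2
        omega
      obtain ⟨j, hj, hm⟩ := side hT hN u hk2 (by omega) hadj hin
      refine ⟨j, hj, fun m hmk => ?_⟩
      rw [← hm m hmk, hmem]
    obtain ⟨e, he⟩ : ∃ e, e ∈ U \ (insert g ((Finset.range k).image fun m : ℕ => c (u + (m : ZMod n)))) := by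
      rw [← Finset.Nonempty, ← Finset.card_pos]
      have h1 := Finset.le_card_sdiff
        (insert g ((Finset.range k).image fun m : ℕ => c (u + (m : ZMod n)))) U
      have h2 := Finset.card_insert_le g ((Finset.range k).image fun m : ℕ => c (u + (m : ZMod n)))
      have h3 := Finset.card_image_le (s := Finset.range k) (f := fun m : ℕ => c (u + (m : ZMod n)))
      rw [Finset.card_range] at h3
      omega
    rw [Finset.mem_sdiff, Finset.mem_insert, not_or] at he
    obtain ⟨j, hj, hm⟩ := key e he.1 he.2.1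
    have hce : ∀ m < k, c (u + (m : ZMod n)) ≠ e := by
      intro m hmk hme
      apply he.2.2
      rw [Finset.mem_image]
      exact ⟨m, Finset.mem_range.2 hmk, hme⟩
    have hm' : ∀ m < k, (c (u + (m : ZMod n)) ∈ U ↔ m ≠ j) := by
      intro m hmk
      rw [← hm m hmk]
      exact ⟨fun h => ⟨h, hce m hmk⟩, fun h => h.1⟩
    obtain ⟨m₁, hm₁, hm₁j⟩ : ∃ m₁ < k, m₁ ≠ j := by
      by_cases h0 : j = 0
      · exact ⟨1, by omega, by omega⟩
      · exact ⟨0, by omega, by omega⟩
    have hm₁U := (hm' m₁ hm₁).2 hm₁j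
    have hm₁g : c (u + (m₁ : ZMod n)) ≠ g := by
      intro hh
      apply chord_not_mem_bd u hk2 hkn
      rw [← hg, ← hh]
      exact c_mem _
    obtain ⟨j', hj', hmm⟩ := key _ hm₁U hm₁g
    have e1 : j = j' := by
      by_contra hne
      have := ((hmm j hj).2 hne).1
      exact (hm' j hj).1 this rfl
    have e2 : m₁ = j' := by
      by_contra hne
      exact ((hmm m₁ hm₁).2 hne).2 rfl
    omega
  exact Finset.eq_of_subset_of_card_le hsub (by rw [card_bd (by omega), hU])

/-- the vertices of the tree graph -/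
abbrev V (n : ℕ) [NeZero n] (d : ℕ) := {G : SimpleGraph (ZMod n) // IsV d G}

/-- the set of boundary paths -/
def BS (n : ℕ) [NeZero n] (d : ℕ) : Set (V n d) := {W | ∃ i, E W.1 = bd n \ {c i}}

lemma mem_BS {d : ℕ} {W : V n d} :
    W ∈ BS n d ↔ ∃ i, E W.1 = bd n \ {c i} := Iff.rfl

/-- the property characterising the set of boundary paths -/
def Q {d : ℕ} (K : Set (V n d)) : Prop :=
  K.ncard = n ∧ (∀ X ∈ K, ∀ Y ∈ K, X ≠ Y → A X.1 Y.1) ∧
    ∃ X ∈ K, ∃ Y ∈ K, ∃ Z ∈ K, X ≠ Y ∧ X ≠ Z ∧ Y ≠ Z ∧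
      n - 1 ≤ {T : V n d | T ≠ Z ∧ A T.1 X.1 ∧ A T.1 Y.1 ∧ ¬ A T.1 Z.1}.ncard

lemma Q_eq {d : ℕ} (hn : 5 ≤ n) {K : Set (V n d)} (hK : Q K) : K = BS n d := by
  classical
  obtain ⟨hcard, hadj, X, hX, Y, hY, Z, hZ, hXY, hXZ, hYZ, hcount⟩ := hK
  have hKfin : K.Finite := Set.finite_of_ncard_pos (by omega)
  have AXY := hadj X hX Y hY hXY
  have AXZ := hadj X hX Z hZ hXZ
  have AYZ := hadj Y hY Z hZ hYZ
  have tr : ∀ W : V n d, W.1.IsTree := fun W => W.2.1
  have cI : (E X.1 ∩ E Y.1).card + 2 = n := (A_def.1 AXY).2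
  have cU : (E X.1 ∪ E Y.1).card = n := by
    have h2 := Finset.card_union_add_card_inter (E X.1) (E Y.1)
    have cX := (tree_iff.1 (tr X)).2
    have cY := (tree_iff.1 (tr Y)).2
    omega
  -- `Z` does not contain the intersection
  have hZI : ¬ E X.1 ∩ E Y.1 ⊆ E Z.1 := by
    intro hIZ
    have hsub : ∀ T : V n d, T ≠ Z → A T.1 X.1 → A T.1 Y.1 → ¬ A T.1 Z.1 →
        ∃ e ∈ E X.1 ∩ E Y.1, E T.1 = (E X.1 ∪ E Y.1) \ {e} := by
      intro T hTZ hTX hTY hnA
      apply sub_union (by omega) (tr X) (tr Y) (tr T) AXY hTX hTY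
      intro hIT
      apply hnA
      rw [A_def]
      refine ⟨fun h => hTZ (Subtype.ext h), ?_⟩
      have h1 : E X.1 ∩ E Y.1 ⊆ E T.1 ∩ E Z.1 := Finset.subset_inter hIT hIZ
      have h2 := Finset.card_le_card h1
      have h3 : (E T.1 ∩ E Z.1).card + 1 < n := by
        have cT := (tree_iff.1 (tr T)).2
        have cZ := (tree_iff.1 (tr Z)).2
        have h4 : E T.1 ∩ E Z.1 ⊂ E T.1 := by
          refine ⟨Finset.inter_subset_left, fun h5 => hTZ ?_⟩
          have h6 : E T.1 ⊆ E Z.1 := h5.trans Finset.inter_subset_right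
          exact Subtype.ext (E_inj (Finset.eq_of_subset_of_card_le h6 (by omega)))
        have := Finset.card_lt_card h4
        omega
      omega
    -- count
    have hle : {T : V n d | T ≠ Z ∧ A T.1 X.1 ∧ A T.1 Y.1 ∧ ¬ A T.1 Z.1}.ncard ≤
        (E X.1 ∩ E Y.1).card := by
      rw [← Set.ncard_coe_finset]
      have hmap : ∀ T ∈ {T : V n d | T ≠ Z ∧ A T.1 X.1 ∧ A T.1 Y.1 ∧ ¬ A T.1 Z.1},
          ∃ e, e ∈ ((E X.1 ∩ E Y.1 : Finset _) : Set (Sym2 (ZMod n))) ∧
            E T.1 = (E X.1 ∪ E Y.1) \ {e} := by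
        rintro T ⟨h1, h2, h3, h4⟩
        obtain ⟨e, he, hE⟩ := hsub T h1 h2 h3 h4
        exact ⟨e, by exact_mod_cast he, hE⟩
      choose f hf1 hf2 using hmap
      apply Set.ncard_le_ncard_of_injOn
        (fun T => if h : T ∈ {T : V n d | T ≠ Z ∧ A T.1 X.1 ∧ A T.1 Y.1 ∧ ¬ A T.1 Z.1}
          then f T h else s(0, 0))
      · intro T hT
        simp only [hT, dif_pos]
        exact hf1 T hT
      · intro T hT T' hT' hTT'
        simp only [hT, hT', dif_pos] at hTT'
        apply Subtype.ext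
        apply E_inj
        rw [hf2 T hT, hf2 T' hT', hTT']
    omega
  obtain ⟨z, hz, hZE⟩ := sub_union (by omega) (tr X) (tr Y) (tr Z) AXY (A_symm AXZ) (A_symm AYZ) hZI
  obtain ⟨x, hx⟩ := A_exists (tr X) (by omega) AXY
  obtain ⟨y, hy⟩ := A_exists (tr Y) (by omega) (A_symm AXY)
  have hxX : x ∈ E X.1 ∧ x ∉ E Y.1 := by
    rw [← Finset.mem_sdiff, hx]; simp
  have hyY : y ∈ E Y.1 ∧ y ∉ E X.1 := by
    rw [← Finset.mem_sdiff, hy]; simp
  have hXE : E X.1 = (E X.1 ∪ E Y.1) \ {y} := by
    ext e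
    rw [Finset.mem_sdiff, Finset.mem_union, Finset.mem_singleton]
    constructor
    · intro h
      exact ⟨Or.inl h, fun h' => hyY.2 (h' ▸ h)⟩
    · rintro ⟨h1 | h1, h2⟩
      · exact h1
      · by_contra h3
        have : e ∈ E Y.1 \ E X.1 := Finset.mem_sdiff.2 ⟨h1, h3⟩
        rw [hy, Finset.mem_singleton] at this
        exact h2 this
  have hYE : E Y.1 = (E X.1 ∪ E Y.1) \ {x} := by
    ext e
    rw [Finset.mem_sdiff, Finset.mem_union, Finset.mem_singleton]
    constructor
    · intro h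
      exact ⟨Or.inr h, fun h' => hxX.2 (h' ▸ h)⟩
    · rintro ⟨h1 | h1, h2⟩
      · by_contra h3
        have : e ∈ E X.1 \ E Y.1 := Finset.mem_sdiff.2 ⟨h1, h3⟩
        rw [hx, Finset.mem_singleton] at this
        exact h2 this
      · exact h1
  set U := E X.1 ∪ E Y.1 with hUdef
  have hall : ∀ W ∈ K, ∃ e ∈ U, E W.1 = U \ {e} := by
    intro W hW
    by_cases h1 : W = X
    · exact ⟨y, Finset.mem_union_right _ hyY.1, by rw [h1]; exact hXE⟩
    by_cases h2 : W = Y
    · exact ⟨x, Finset.mem_union_left _ hxX.1, by rw [h2]; exact hYE⟩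
    by_cases h3 : W = Z
    · exact ⟨z, Finset.mem_union_left _ (Finset.mem_inter.1 hz).1, by rw [h3]; exact hZE⟩
    have hWX := hadj W hW X hX h1
    have hWY := hadj W hW Y hY h2
    have hWZ := hadj W hW Z hZ h3
    have hI : ¬ E X.1 ∩ E Y.1 ⊆ E W.1 := by
      intro hI
      have cW := (tree_iff.1 (tr W)).2
      have hWne : ¬ E W.1 ⊆ U := by
        intro hWU
        -- W = I + something in {x, y}
        have hWI : ∀ e ∈ E W.1, e ∈ E X.1 ∩ E Y.1 ∨ e = x ∨ e = y := by
          intro e he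
          have := hWU he
          rw [hUdef, Finset.mem_union] at this
          rw [Finset.mem_inter]
          by_cases heX : e ∈ E X.1
          · by_cases heY : e ∈ E Y.1
            · exact Or.inl ⟨heX, heY⟩
            · have h4 : e ∈ E X.1 \ E Y.1 := Finset.mem_sdiff.2 ⟨heX, heY⟩
              rw [hx, Finset.mem_singleton] at h4
              exact Or.inr (Or.inl h4)
          · have heY : e ∈ E Y.1 := by
              rcases this with h | h
              · exact absurd h heX
              · exact h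
            have h4 : e ∈ E Y.1 \ E X.1 := Finset.mem_sdiff.2 ⟨heY, heX⟩
            rw [hy, Finset.mem_singleton] at h4
            exact Or.inr (Or.inr h4)
        by_cases hxW : x ∈ E W.1
        · apply h1
          have hXW : E X.1 ⊆ E W.1 := by
            intro e he
            by_cases heY : e ∈ E Y.1
            · exact hI (Finset.mem_inter.2 ⟨he, heY⟩)
            · have h4 : e ∈ E X.1 \ E Y.1 := Finset.mem_sdiff.2 ⟨he, heY⟩
              rw [hx, Finset.mem_singleton] at h4
              rw [h4]; exact hxW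
          have cX := (tree_iff.1 (tr X)).2
          exact Subtype.ext (E_inj (Finset.eq_of_subset_of_card_le hXW (by omega)).symm)
        · by_cases hyW : y ∈ E W.1
          · apply h2
            have hYW : E Y.1 ⊆ E W.1 := by
              intro e he
              by_cases heX : e ∈ E X.1
              · exact hI (Finset.mem_inter.2 ⟨heX, he⟩)
              · have h4 : e ∈ E Y.1 \ E X.1 := Finset.mem_sdiff.2 ⟨he, heX⟩
                rw [hy, Finset.mem_singleton] at h4
                rw [h4]; exact hyW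
            have cY := (tree_iff.1 (tr Y)).2
            exact Subtype.ext (E_inj (Finset.eq_of_subset_of_card_le hYW (by omega)).symm)
          · have hWsub : E W.1 ⊆ E X.1 ∩ E Y.1 := by
              intro e he
              rcases hWI e he with h | h | h
              · exact h
              · exact absurd (h ▸ he) hxW
              · exact absurd (h ▸ he) hyW
            have := Finset.card_le_card hWsub
            omega
      obtain ⟨w, hwW, hwU⟩ := Finset.not_subset.1 hWne
      obtain ⟨v, hv⟩ := A_exists (tr W) (by omega) hWZ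
      have hwZ : w ∉ E Z.1 := by
        rw [hZE]
        intro h
        exact hwU (Finset.mem_sdiff.1 h).1
      have hzW : z ∈ E W.1 := hI hz
      have hzZ : z ∉ E Z.1 := by
        rw [hZE]; simp
      have e1 : w ∈ E W.1 \ E Z.1 := Finset.mem_sdiff.2 ⟨hwW, hwZ⟩
      have e2 : z ∈ E W.1 \ E Z.1 := Finset.mem_sdiff.2 ⟨hzW, hzZ⟩
      rw [hv, Finset.mem_singleton] at e1 e2
      apply hwU
      rw [e1, ← e2]
      exact Finset.mem_union_left _ (Finset.mem_inter.1 hz).1
    obtain ⟨e, he, hWE⟩ := sub_union (by omega) (tr X) (tr Y) (tr W) AXY hWX hWY hI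
    exact ⟨e, Finset.mem_union_left _ (Finset.mem_inter.1 he).1, hWE⟩
  -- all elements of `U` occur
  have hsurj : ∀ e ∈ U, ∃ W ∈ K, E W.1 = U \ {e} := by
    choose! f hf1 hf2 using hall
    have hinj : Set.InjOn f K := by
      intro W hW W' hW' hWW'
      apply Subtype.ext
      apply E_inj
      rw [hf2 W hW, hf2 W' hW', hWW']
    have himg : f '' K = (U : Set (Sym2 (ZMod n))) := by
      apply Set.eq_of_subset_of_ncard_le
      · rintro _ ⟨W, hW, rfl⟩
        exact_mod_cast hf1 W hW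
      · rw [Set.ncard_coe_finset, Set.InjOn.ncard_image hinj, hcard, cU]
      · exact Finset.finite_toSet _
    intro e he
    have : e ∈ f '' K := by rw [himg]; exact_mod_cast he
    obtain ⟨W, hW, rfl⟩ := this
    exact ⟨W, hW, hf2 W hW⟩
  have hUbd : U = bd n := by
    apply U_eq_bd hn cU
    intro e he
    obtain ⟨W, _, hWE⟩ := hsurj e he
    exact ⟨W.1, W.2.1, W.2.2.1, hWE⟩
  ext W
  rw [mem_BS]
  constructor
  · intro hW
    obtain ⟨e, he, hWE⟩ := hall W hW
    rw [hUbd, mem_bd] at he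
    obtain ⟨i, rfl⟩ := he
    exact ⟨i, by rw [hWE, hUbd]⟩
  · rintro ⟨i, hi⟩
    obtain ⟨W', hW', hWE'⟩ := hsurj (c i) (by rw [hUbd]; exact c_mem _)
    have : W = W' := by
      apply Subtype.ext
      apply E_inj
      rw [hi, hWE', hUbd]
    rw [this]
    exact hW'

end

end Pool.Agent.Helper28K9.TG
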