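import Mathlib
import Pool.Agent.Helper28K9.TG.Clique

/-!
# Plane spanning trees of a convex polygon: the induced permutation of the boundary edges
-/

set_option autoImplicit false
set_option linter.unusedSectionVars false
set_option linter.unusedVariables false

namespace Pool.Agent.Helper28K9.TG

open SimpleGraph

section

variable {n : ℕ} [NeZero n]

/-- the tree graph on `ZMod n` -/
def TGr (n : ℕ) [NeZero n] (d : ℕ) : SimpleGraph (V n d) where
  Adj X Y := A X.1 Y.1
  symm := ⟨fun _ _ h => A_symm h⟩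
  loopless := ⟨fun X h => by
    classical
    exact (A_def.1 h).1 rfl⟩

lemma TGr_adj {d : ℕ} {X Y : V n d} : (TGr n d).Adj X Y ↔ A X.1 Y.1 := Iff.rfl

lemma V_ext {d : ℕ} {X Y : V n d} (h : E X.1 = E Y.1) : X = Y := Subtype.ext (E_inj h)

section

variable {d : ℕ}

lemma one_adj (hn : 3 ≤ n) {T : SimpleGraph (ZMod n)} (hT : T.IsTree) {f : Sym2 (ZMod n)}
    (hf : f ∉ bd n) {i j l : ZMod n}
    (hE : E T = insert f (bd n \ {c i, c j})) {B : SimpleGraph (ZMod n)}
    (hB : E B = bd n \ {c l}) : A T B ↔ l = i ∨ l = j := by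
  rw [A_iff hT (by omega), hE, hB]
  constructor
  · intro h
    by_contra hcon
    push Not at hcon
    obtain ⟨x, hx⟩ := Finset.card_eq_one.1 h
    have e1 : f ∈ (insert f (bd n \ {c i, c j})) \ (bd n \ {c l}) := by
      rw [Finset.mem_sdiff, Finset.mem_sdiff]
      exact ⟨Finset.mem_insert_self _ _, fun h => hf h.1⟩
    have e2 : c l ∈ (insert f (bd n \ {c i, c j})) \ (bd n \ {c l}) := by
      rw [Finset.mem_sdiff, Finset.mem_insert, Finset.mem_sdiff, Finset.mem_sdiff,
        Finset.mem_insert, Finset.mem_singleton, Finset.mem_singleton]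
      refine ⟨Or.inr ⟨c_mem _, ?_⟩, fun h => h.2 rfl⟩
      rintro (h | h)
      · exact hcon.1 (c_inj hn h)
      · exact hcon.2 (c_inj hn h)
    rw [hx, Finset.mem_singleton] at e1 e2
    apply hf
    rw [e1, ← e2]
    exact c_mem _
  · intro h
    rw [Finset.card_eq_one]
    refine ⟨f, ?_⟩
    ext x
    rw [Finset.mem_sdiff, Finset.mem_insert, Finset.mem_sdiff, Finset.mem_sdiff,
      Finset.mem_insert, Finset.mem_singleton, Finset.mem_singleton, Finset.mem_singleton]
    constructor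
    · rintro ⟨h1 | h1, h2⟩
      · exact h1
      · exfalso
        apply h2
        refine ⟨h1.1, fun h3 => h1.2 ?_⟩
        rcases h with rfl | rfl
        · exact Or.inl h3
        · exact Or.inr h3
    · rintro rfl
      exact ⟨Or.inl rfl, fun h => hf h.1⟩

lemma Q_BS (hn : 5 ≤ n) (hd : 3 ≤ d) : Q (BS n d) := by
  classical
  have hB : ∀ i : ZMod n, ∃ W : V n d, E W.1 = bd n \ {c i} := by
    intro i
    obtain ⟨G, hG, hE⟩ := exists_B (n := n) (by omega) (d := d) (by omega) i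
    exact ⟨⟨G, hG⟩, hE⟩
  choose B hB using hB
  have hBinj : Function.Injective B := by
    intro i j hij
    by_contra hne
    have h1 : c i ∈ E (B j).1 := by
      rw [hB, Finset.mem_sdiff, Finset.mem_singleton]
      exact ⟨c_mem _, fun h => hne (c_inj (by omega) h)⟩
    rw [← hij, hB, Finset.mem_sdiff, Finset.mem_singleton] at h1
    exact h1.2 rfl
  have hrange : BS n d = Set.range B := by
    ext W
    rw [mem_BS, Set.mem_range]
    constructor
    · rintro ⟨i, hi⟩
      exact ⟨i, V_ext (by rw [hB, hi])⟩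
    · rintro ⟨i, rfl⟩
      exact ⟨i, hB i⟩
  have hmem : ∀ i, B i ∈ BS n d := fun i => by rw [hrange]; exact ⟨i, rfl⟩
  refine ⟨?_, ?_, ?_⟩
  · rw [hrange, ← Set.image_univ, Set.InjOn.ncard_image (hBinj.injOn), Set.ncard_univ,
      Nat.card_zmod]
  · intro X hX Y hY hXY
    rw [hrange] at hX hY
    obtain ⟨i, rfl⟩ := hX
    obtain ⟨j, rfl⟩ := hY
    have hij : i ≠ j := fun h => hXY (by rw [h])
    rw [A_iff (B i).2.1 (by omega), hB, hB, Finset.card_eq_one]
    refine ⟨c j, ?_⟩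
    ext x
    simp only [Finset.mem_sdiff, Finset.mem_singleton]
    constructor
    · rintro ⟨h1, h2⟩
      by_contra h3
      exact h2 ⟨h1.1, h3⟩
    · rintro rfl
      exact ⟨⟨c_mem _, fun h => hij (c_inj (by omega) h).symm⟩, fun h => h.2 rfl⟩
  · have e1 : (0 : ZMod n) + ((0 : ℕ) : ZMod n) = 0 := by simp
    have e2 : (0 : ZMod n) + ((1 : ℕ) : ZMod n) = 1 := by simp
    have e3 : (0 : ZMod n) + ((2 : ℕ) : ZMod n) = 2 := by simp
    have h01 : (0 : ZMod n) ≠ 1 := by
      intro h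
      rw [← e1, ← e2] at h
      have := coord_inj (0 : ZMod n) (by omega) (by omega) h
      omega
    have h02 : (0 : ZMod n) ≠ 2 := by
      intro h
      rw [← e1, ← e3] at h
      have := coord_inj (0 : ZMod n) (by omega) (by omega) h
      omega
    have h12 : (1 : ZMod n) ≠ 2 := by
      intro h
      rw [← e2, ← e3] at h
      have := coord_inj (0 : ZMod n) (by omega) (by omega) h
      omega
    refine ⟨B 0, hmem 0, B 2, hmem 2, B 1, hmem 1, fun h => h02 (hBinj h), fun h => h01 (hBinj h),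
      fun h => h12 (hBinj h).symm, ?_⟩
    have hex : ∀ x : Fin 2 × Fin (n - 3), ∃ T : V n d,
        E T.1 = insert s((1 : ZMod n) + (x.1.val : ZMod n), 1 + ((x.1.val + (x.2.val + 2) : ℕ) : ZMod n))
          (bd n \ {c 2, c 0}) := by
      rintro ⟨⟨t, ht⟩, ⟨m, hm⟩⟩
      obtain ⟨G, hG, hE⟩ := exists_one (n := n) hd ((1 : ZMod n) + (t : ZMod n)) (k := m + 2)
        (a := 1 - t) (b := n - 1 - t) (by omega) (by omega) (by omega) (by omega) (by omega)
      refine ⟨⟨G, hG⟩, ?_⟩
      have a1 : (1 : ZMod n) + (t : ZMod n) + ((m + 2 : ℕ) : ZMod n) =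
          1 + ((t + (m + 2) : ℕ) : ZMod n) := by
        rw [coord_add (1 : ZMod n) t (m + 2)]
      have a2 : (1 : ZMod n) + (t : ZMod n) + ((1 - t : ℕ) : ZMod n) = 2 := by
        rw [← coord_add, show t + (1 - t) = 1 by omega]
        push_cast
        norm_num
      have a3 : (1 : ZMod n) + (t : ZMod n) + ((n - 1 - t : ℕ) : ZMod n) = 0 := by
        rw [← coord_add, show t + (n - 1 - t) = n - 1 by omega]
        have : (1 : ZMod n) + ((n - 1 : ℕ) : ZMod n) = ((1 + (n - 1) : ℕ) : ZMod n) := by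
          push_cast; ring
        rw [this, show 1 + (n - 1) = n by omega]
        simp
      rw [a1, a2, a3] at hE
      exact hE
    choose f hf using hex
    have hdiag : ∀ x : Fin 2 × Fin (n - 3), s((1 : ZMod n) + (x.1.val : ZMod n),
        1 + ((x.1.val + (x.2.val + 2) : ℕ) : ZMod n)) ∉ bd n := by
      rintro ⟨⟨t, ht⟩, ⟨m, hm⟩⟩
      rw [coord_add (1 : ZMod n) t (m + 2)]
      exact chord_not_mem_bd _ (by omega) (by omega)
    have hfinj : Function.Injective f := by
      rintro ⟨⟨t, ht⟩, ⟨m, hm⟩⟩ ⟨⟨t', ht'⟩, ⟨m', hm'⟩⟩ hff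
      have h1 := hf ⟨⟨t, ht⟩, ⟨m, hm⟩⟩
      have h2 : s((1 : ZMod n) + (t' : ZMod n), 1 + ((t' + (m' + 2) : ℕ) : ZMod n)) ∈
          E (f ⟨⟨t, ht⟩, ⟨m, hm⟩⟩).1 := by
        rw [hff, hf]
        exact Finset.mem_insert_self _ _
      rw [h1, Finset.mem_insert] at h2
      rcases h2 with h2 | h2
      · have := edge_eq (1 : ZMod n) (by omega) (by omega) (by omega) (by omega) (by omega)
          (by omega) h2
        obtain ⟨q1, q2⟩ := this
        simp only at q1 q2
        have q3 : m = m' := by omega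
        subst q1
        subst q3
        rfl
      · exfalso
        exact hdiag ⟨⟨t', ht'⟩, ⟨m', hm'⟩⟩ (Finset.mem_sdiff.1 h2).1
    have hsub : Set.range f ⊆
        {T : V n d | T ≠ B 1 ∧ A T.1 (B 0).1 ∧ A T.1 (B 2).1 ∧ ¬ A T.1 (B 1).1} := by
      rintro _ ⟨x, rfl⟩
      refine ⟨?_, ?_, ?_, ?_⟩
      · intro h
        have h2 : s((1 : ZMod n) + (x.1.val : ZMod n),
            1 + ((x.1.val + (x.2.val + 2) : ℕ) : ZMod n)) ∈ E (f x).1 := by
          rw [hf]
          exact Finset.mem_insert_self _ _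
        rw [h, hB] at h2
        exact hdiag x (Finset.mem_sdiff.1 h2).1
      · exact (one_adj (by omega) (f x).2.1 (hdiag x) (hf x) (hB 0)).2 (Or.inr rfl)
      · exact (one_adj (by omega) (f x).2.1 (hdiag x) (hf x) (hB 2)).2 (Or.inl rfl)
      · intro h
        rcases (one_adj (by omega) (f x).2.1 (hdiag x) (hf x) (hB 1)).1 h with h | h
        · exact h12 h
        · exact h01 h.symm
    have hle := Set.ncard_le_ncard hsub (Set.toFinite _)
    rw [← Set.image_univ, Set.InjOn.ncard_image (hfinj.injOn), Set.ncard_univ] at hle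
    simp only [Nat.card_eq_fintype_card, Fintype.card_prod, Fintype.card_fin] at hle
    omega

end

lemma Q_image {d : ℕ} (φ : TGr n d ≃g TGr n d) {K : Set (V n d)} (hK : Q K) : Q (φ '' K) := by
  obtain ⟨hcard, hadj, X, hX, Y, hY, Z, hZ, hXY, hXZ, hYZ, hcount⟩ := hK
  have hA : ∀ X Y : V n d, A (φ X).1 (φ Y).1 ↔ A X.1 Y.1 := fun X Y => φ.map_rel_iff
  refine ⟨?_, ?_, φ X, ⟨X, hX, rfl⟩, φ Y, ⟨Y, hY, rfl⟩, φ Z, ⟨Z, hZ, rfl⟩,
    fun h => hXY (φ.injective h), fun h => hXZ (φ.injective h), fun h => hYZ (φ.injective h), ?_⟩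
  · rw [Set.InjOn.ncard_image (φ.injective.injOn), hcard]
  · rintro _ ⟨X, hX, rfl⟩ _ ⟨Y, hY, rfl⟩ hne
    rw [hA]
    exact hadj X hX Y hY fun h => hne (by rw [h])
  · refine hcount.trans ?_
    rw [← Set.InjOn.ncard_image (φ.injective.injOn)]
    refine Set.ncard_le_ncard ?_ (Set.toFinite _)
    rintro _ ⟨T, ⟨h1, h2, h3, h4⟩, rfl⟩
    refine ⟨fun h => h1 (φ.injective h), ?_, ?_, ?_⟩
    · rw [hA]; exact h2
    · rw [hA]; exact h3
    · rw [hA]; exact h4

lemma image_BS {d : ℕ} (hn : 5 ≤ n) (hd : 3 ≤ d) (φ : TGr n d ≃g TGr n d) :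
    φ '' BS n d = BS n d := by
  classical
  exact Q_eq hn (Q_image φ (Q_BS hn hd))

lemma mem_BS_image {d : ℕ} (hn : 5 ≤ n) (hd : 3 ≤ d) (φ : TGr n d ≃g TGr n d) (T : V n d) :
    φ T ∈ BS n d ↔ T ∈ BS n d := by
  constructor
  · intro h
    rw [← image_BS hn hd φ] at h
    obtain ⟨T', hT', h⟩ := h
    rw [← φ.injective h]
    exact hT'
  · intro h
    rw [← image_BS hn hd φ]
    exact ⟨T, h, rfl⟩

/-- the permutation of the boundary edges -/
lemma exists_sigma {d : ℕ} (hn : 5 ≤ n) (hd : 3 ≤ d)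
    (φ : TGr n d ≃g TGr n d) :
    ∃ σ : ZMod n → ZMod n, Function.Injective σ ∧
      ∀ (W : V n d) (i : ZMod n), E W.1 = bd n \ {c i} → E (φ W).1 = bd n \ {c (σ i)} := by
  classical
  have hB : ∀ i : ZMod n, ∃ W : V n d, E W.1 = bd n \ {c i} := by
    intro i
    obtain ⟨G, hG, hE⟩ := exists_B (n := n) (by omega) (d := d) (by omega) i
    exact ⟨⟨G, hG⟩, hE⟩
  choose B hB using hB
  have h1 : ∀ i, ∃ j, E (φ (B i)).1 = bd n \ {c j} := by
    intro i
    rw [← mem_BS, mem_BS_image hn hd φ, mem_BS]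
    exact ⟨i, hB i⟩
  choose σ hσ using h1
  refine ⟨σ, ?_, ?_⟩
  · intro i j hij
    have h2 : φ (B i) = φ (B j) := V_ext (by rw [hσ, hσ, hij])
    have h3 := φ.injective h2
    by_contra hne
    have h4 : c i ∈ E (B j).1 := by
      rw [hB, Finset.mem_sdiff, Finset.mem_singleton]
      exact ⟨c_mem _, fun h => hne (c_inj (by omega) h)⟩
    rw [← h3, hB, Finset.mem_sdiff, Finset.mem_singleton] at h4
    exact h4.2 rfl
  · intro W i hW
    have : W = B i := V_ext (by rw [hW, hB])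
    rw [this]
    exact hσ i

/-- a tree adjacent to two boundary paths which is not a boundary path -/
lemma adj_two {d : ℕ} (hn : 3 ≤ n) {T B₁ B₂ : V n d}
    {i j : ZMod n} (hij : i ≠ j) (hT : T ∉ BS n d) (h1 : A T.1 B₁.1) (h2 : A T.1 B₂.1)
    (hB₁ : E B₁.1 = bd n \ {c i}) (hB₂ : E B₂.1 = bd n \ {c j}) :
    ∃ f, f ∉ bd n ∧ E T.1 = insert f (bd n \ {c i, c j}) := by
  obtain ⟨f, hf, hfb⟩ : ∃ f ∈ E T.1, f ∉ bd n := by
    by_contra hcon
    push Not at hcon
    apply hT
    rw [mem_BS]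
    obtain ⟨i, hi⟩ := zero_diag hn T.2.1 hcon
    exact ⟨i, hi⟩
  refine ⟨f, hfb, ?_⟩
  obtain ⟨x, hx⟩ := A_exists T.2.1 (by omega) h1
  obtain ⟨y, hy⟩ := A_exists T.2.1 (by omega) h2
  have hfx : f = x := by
    have : f ∈ E T.1 \ E B₁.1 := by
      rw [hB₁, Finset.mem_sdiff, Finset.mem_sdiff]
      exact ⟨hf, fun h => hfb h.1⟩
    rw [hx, Finset.mem_singleton] at this
    exact this
  have hfy : f = y := by
    have : f ∈ E T.1 \ E B₂.1 := by
      rw [hB₂, Finset.mem_sdiff, Finset.mem_sdiff]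
      exact ⟨hf, fun h => hfb h.1⟩
    rw [hy, Finset.mem_singleton] at this
    exact this
  subst hfx
  subst hfy
  apply Finset.eq_of_subset_of_card_le
  · intro e he
    rw [Finset.mem_insert, Finset.mem_sdiff, Finset.mem_insert, Finset.mem_singleton]
    by_cases hef : e = f
    · exact Or.inl hef
    · right
      have k1 : e ∈ E B₁.1 := by
        by_contra hcon
        have : e ∈ E T.1 \ E B₁.1 := Finset.mem_sdiff.2 ⟨he, hcon⟩
        rw [hx, Finset.mem_singleton] at this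
        exact hef this
      have k2 : e ∈ E B₂.1 := by
        by_contra hcon
        have : e ∈ E T.1 \ E B₂.1 := Finset.mem_sdiff.2 ⟨he, hcon⟩
        rw [hy, Finset.mem_singleton] at this
        exact hef this
      rw [hB₁, Finset.mem_sdiff, Finset.mem_singleton] at k1
      rw [hB₂, Finset.mem_sdiff, Finset.mem_singleton] at k2
      refine ⟨k1.1, ?_⟩
      rintro (h | h)
      · exact k1.2 h
      · exact k2.2 h
  · have hc : c i ≠ c j := fun h => hij (c_inj hn h)
    rw [Finset.card_insert_of_notMem, Finset.card_sdiff_of_subset, card_bd hn,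
      Finset.card_pair hc]
    · have := (tree_iff.1 T.2.1).2
      omega
    · intro x hx
      rw [Finset.mem_insert, Finset.mem_singleton] at hx
      rcases hx with rfl | rfl <;> exact c_mem _
    · rw [Finset.mem_sdiff]
      exact fun h => hfb h.1

/-- images of trees with one diagonal -/
lemma phi_one {d : ℕ} (hn : 5 ≤ n) (hd : 3 ≤ d)
    (φ : TGr n d ≃g TGr n d) {σ : ZMod n → ZMod n} (hσi : Function.Injective σ)
    (hσ : ∀ (W : V n d) (i : ZMod n), E W.1 = bd n \ {c i} → E (φ W).1 = bd n \ {c (σ i)})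
    {T : V n d} {f : Sym2 (ZMod n)} (hf : f ∉ bd n) {i j : ZMod n} (hij : i ≠ j)
    (hE : E T.1 = insert f (bd n \ {c i, c j})) :
    ∃ f', f' ∉ bd n ∧ E (φ T).1 = insert f' (bd n \ {c (σ i), c (σ j)}) := by
  have hB : ∀ i : ZMod n, ∃ W : V n d, E W.1 = bd n \ {c i} := by
    intro i
    obtain ⟨G, hG, hE⟩ := exists_B (n := n) (by omega) (d := d) (by omega) i
    exact ⟨⟨G, hG⟩, hE⟩
  choose B hB using hB
  have hA : ∀ X Y : V n d, A (φ X).1 (φ Y).1 ↔ A X.1 Y.1 := fun X Y => φ.map_rel_iff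
  apply adj_two (by omega) (B₁ := φ (B i)) (B₂ := φ (B j)) (fun h => hij (hσi h))
  · rw [mem_BS_image hn hd, mem_BS]
    rintro ⟨l, hl⟩
    have : f ∈ E T.1 := by rw [hE]; exact Finset.mem_insert_self _ _
    rw [hl] at this
    exact hf (Finset.mem_sdiff.1 this).1
  · rw [hA]
    exact (one_adj (by omega) T.2.1 hf hE (hB i)).2 (Or.inl rfl)
  · rw [hA]
    exact (one_adj (by omega) T.2.1 hf hE (hB j)).2 (Or.inr rfl)
  · exact hσ _ _ (hB i)
  · exact hσ _ _ (hB j)

/-- adjacent trees with one diagonal -/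
lemma one_one {T T' : SimpleGraph (ZMod n)} (hn : 3 ≤ n)
    (hT : T.IsTree) {f f' : Sym2 (ZMod n)}
    (hf : f ∉ bd n) (hf' : f' ∉ bd n) {i j l : ZMod n} (hij : i ≠ j) (hil : i ≠ l) (hjl : j ≠ l)
    (hE : E T = insert f (bd n \ {c i, c j})) (hE' : E T' = insert f' (bd n \ {c i, c l})) :
    A T T' ↔ f = f' := by
  rw [A_iff hT (by omega), hE, hE']
  have hl : c l ∈ insert f (bd n \ {c i, c j}) \ insert f' (bd n \ {c i, c l}) := by
    rw [Finset.mem_sdiff, Finset.mem_insert, Finset.mem_insert, Finset.mem_sdiff,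
      Finset.mem_sdiff, Finset.mem_insert, Finset.mem_insert, Finset.mem_singleton,
      Finset.mem_singleton]
    refine ⟨Or.inr ⟨c_mem _, ?_⟩, ?_⟩
    · rintro (h | h)
      · exact hil (c_inj hn h).symm
      · exact hjl (c_inj hn h).symm
    · rintro (h | h)
      · exact hf' (h ▸ c_mem _)
      · exact h.2 (Or.inr rfl)
  constructor
  · intro h
    obtain ⟨x, hx⟩ := Finset.card_eq_one.1 h
    by_contra hne
    have hl' := hl
    have hff : f ∈ insert f (bd n \ {c i, c j}) \ insert f' (bd n \ {c i, c l}) := by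
      rw [Finset.mem_sdiff, Finset.mem_insert, Finset.mem_insert, Finset.mem_sdiff,
        Finset.mem_sdiff]
      refine ⟨Or.inl rfl, ?_⟩
      rintro (h | h)
      · exact hne h
      · exact hf h.1
    rw [hx, Finset.mem_singleton] at hl' hff
    apply hf
    rw [hff, ← hl']
    exact c_mem _
  · rintro rfl
    rw [Finset.card_eq_one]
    refine ⟨c l, ?_⟩
    apply Finset.eq_singleton_iff_unique_mem.2
    refine ⟨hl, fun x hx => ?_⟩
    rw [Finset.mem_sdiff, Finset.mem_insert, Finset.mem_insert, Finset.mem_sdiff,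
      Finset.mem_sdiff, Finset.mem_insert, Finset.mem_insert, Finset.mem_singleton,
      Finset.mem_singleton] at hx
    obtain ⟨h1 | h1, h2⟩ := hx
    · exact absurd (Or.inl h1) h2
    · by_contra h3
      apply h2
      refine Or.inr ⟨h1.1, ?_⟩
      rintro (h | h)
      · exact h1.2 (Or.inl h)
      · exact h3 h

/-- the diagonal of the image does not depend on the missing boundary edges -/
lemma const_diag {d : ℕ} (hn : 5 ≤ n) (hd : 3 ≤ d)
    (φ : TGr n d ≃g TGr n d) {σ : ZMod n → ZMod n} (hσi : Function.Injective σ)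
    (hσ : ∀ (W : V n d) (i : ZMod n), E W.1 = bd n \ {c i} → E (φ W).1 = bd n \ {c (σ i)})
    (u : ZMod n) {k : ℕ} (hk : 2 ≤ k) (hkn : k + 2 ≤ n) :
    ∃ τ, τ ∉ bd n ∧ ∀ a b : ℕ, a < k → k ≤ b → b < n → ∀ T : V n d,
      E T.1 = insert s(u, u + (k : ZMod n)) (bd n \ {c (u + (a : ZMod n)), c (u + (b : ZMod n))}) →
      E (φ T).1 = insert τ (bd n \ {c (σ (u + (a : ZMod n))), c (σ (u + (b : ZMod n)))}) := by
  have hA : ∀ X Y : V n d, A (φ X).1 (φ Y).1 ↔ A X.1 Y.1 := fun X Y => φ.map_rel_iff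
  have hfb := chord_not_mem_bd u hk hkn
  have hex : ∀ a b : ℕ, a < k → k ≤ b → b < n → ∃ T : V n d,
      E T.1 = insert s(u, u + (k : ZMod n))
        (bd n \ {c (u + (a : ZMod n)), c (u + (b : ZMod n))}) := by
    intro a b ha hb hbn
    obtain ⟨G, hG, hE⟩ := exists_one (n := n) hd u hk hkn ha hb hbn
    exact ⟨⟨G, hG⟩, hE⟩
  have hne : ∀ a b : ℕ, a < n → b < n → a ≠ b → u + (a : ZMod n) ≠ u + (b : ZMod n) :=
    fun a b ha hb hab h => hab (coord_inj u ha hb h)
  obtain ⟨T₀, hT₀⟩ := hex 0 k (by omega) le_rfl (by omega)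
  obtain ⟨τ, hτb, hτ⟩ := phi_one hn hd φ hσi hσ hfb (hne 0 k (by omega) (by omega) (by omega)) hT₀
  refine ⟨τ, hτb, ?_⟩
  -- step 1: vary `b`
  have step1 : ∀ b : ℕ, k ≤ b → b < n → ∀ T : V n d,
      E T.1 = insert s(u, u + (k : ZMod n))
        (bd n \ {c (u + ((0 : ℕ) : ZMod n)), c (u + (b : ZMod n))}) →
      E (φ T).1 = insert τ (bd n \ {c (σ (u + ((0 : ℕ) : ZMod n))), c (σ (u + (b : ZMod n)))}) := by
    intro b hb hbn T hT
    by_cases hbk : b = k
    · subst hbk
      have : T = T₀ := V_ext (by rw [hT, hT₀])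
      rw [this, hτ]
    · obtain ⟨f', hf'b, hf'⟩ := phi_one hn hd φ hσi hσ hfb (hne 0 b (by omega) hbn (by omega)) hT
      have h1 : A T₀.1 T.1 := (one_one (by omega) T₀.2.1 hfb hfb
        (hne 0 k (by omega) (by omega) (by omega)) (hne 0 b (by omega) (by omega) (by omega))
        (hne k b (by omega) (by omega) (by omega)) hT₀ hT).2 rfl
      have h2 := (hA T₀ T).2 h1
      have h3 := (one_one (by omega) (φ T₀).2.1 hτb hf'b
        (fun h => hne 0 k (by omega) (by omega) (by omega) (hσi h))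
        (fun h => hne 0 b (by omega) (by omega) (by omega) (hσi h))
        (fun h => hne k b (by omega) (by omega) (by omega) (hσi h)) hτ hf').1 h2
      rw [hf', h3]
  intro a b ha hb hbn T hT
  by_cases ha0 : a = 0
  · subst ha0
    exact step1 b hb hbn T hT
  · obtain ⟨T₁, hT₁⟩ := hex 0 b (by omega) hb hbn
    have hτ₁ := step1 b hb hbn T₁ hT₁
    obtain ⟨f', hf'b, hf'⟩ := phi_one hn hd φ hσi hσ hfb (hne a b (by omega) hbn (by omega)) hT
    rw [Finset.pair_comm] at hT₁ hT hf' hτ₁ ⊢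
    have h1 : A T₁.1 T.1 := (one_one (by omega) T₁.2.1 hfb hfb
      (hne b 0 (by omega) (by omega) (by omega)) (hne b a (by omega) (by omega) (by omega))
      (hne 0 a (by omega) (by omega) (by omega)) hT₁ hT).2 rfl
    have h2 := (hA T₁ T).2 h1
    have h3 := (one_one (by omega) (φ T₁).2.1 hτb hf'b
      (fun h => hne b 0 (by omega) (by omega) (by omega) (hσi h))
      (fun h => hne b a (by omega) (by omega) (by omega) (hσi h))
      (fun h => hne 0 a (by omega) (by omega) (by omega) (hσi h)) hτ₁ hf').1 h2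
    rw [hf', h3]

/-- a tree with one diagonal: the missing boundary edges are on different sides -/
lemma sep (hn : 5 ≤ n) {T : SimpleGraph (ZMod n)} (hT : T.IsTree)
    (hN : NC T) {v : ZMod n} {k : ℕ}
    (hk : 2 ≤ k) (hkn : k + 2 ≤ n) {x y : ZMod n} (hxy : x ≠ y)
    (hE : E T = insert s(v, v + (k : ZMod n)) (bd n \ {c x, c y})) :
    (∃ a b : ℕ, a < k ∧ k ≤ b ∧ b < n ∧ x = v + (a : ZMod n) ∧ y = v + (b : ZMod n)) ∨
    (∃ a b : ℕ, a < k ∧ k ≤ b ∧ b < n ∧ y = v + (a : ZMod n) ∧ x = v + (b : ZMod n)) := by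
  have hg : s(v, v + (k : ZMod n)) ∈ E T := by rw [hE]; exact Finset.mem_insert_self _ _
  have hfb := chord_not_mem_bd v hk hkn
  have h : ∀ e ∈ E T, e ∉ bd n → e = s(v, v + (k : ZMod n)) := by
    intro e he heb
    rw [hE, Finset.mem_insert, Finset.mem_sdiff] at he
    rcases he with h | h
    · exact h
    · exact absurd h.1 heb
  obtain ⟨a, b, ha, hb, hbn, hE''⟩ := one_diag hT hN hk hkn hg h
  have hE' : E T = insert s(v, v + (k : ZMod n))
      (bd n \ {c (v + (a : ZMod n)), c (v + (b : ZMod n))}) := hE''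
  have key : ∀ z : ZMod n, z = x ∨ z = y → z = v + (a : ZMod n) ∨ z = v + (b : ZMod n) := by
    intro z hz
    by_contra hcon
    push Not at hcon
    have h1 : c z ∈ E T := by
      rw [hE', Finset.mem_insert, Finset.mem_sdiff, Finset.mem_insert, Finset.mem_singleton]
      refine Or.inr ⟨c_mem _, ?_⟩
      rintro (h | h)
      · exact hcon.1 (c_inj (by omega) h)
      · exact hcon.2 (c_inj (by omega) h)
    rw [hE, Finset.mem_insert, Finset.mem_sdiff, Finset.mem_insert, Finset.mem_singleton] at h1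
    rcases h1 with h1 | h1
    · exact hfb (h1 ▸ c_mem _)
    · apply h1.2
      rcases hz with rfl | rfl
      · exact Or.inl rfl
      · exact Or.inr rfl
  rcases key x (Or.inl rfl) with h1 | h1
  · rcases key y (Or.inr rfl) with h2 | h2
    · exact absurd (h1.trans h2.symm) hxy
    · exact Or.inl ⟨a, b, ha, hb, hbn, h1, h2⟩
  · rcases key y (Or.inr rfl) with h2 | h2
    · exact Or.inr ⟨a, b, ha, hb, hbn, h2, h1⟩
    · exact absurd (h1.trans h2.symm) hxy

end

end Pool.Agent.Helper28K9.TG
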