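import Mathlib
import Pool.Agent.Helper28K9.TG.Sigma

/-!
# Plane spanning trees of a convex polygon: the induced permutation is dihedral, and an
automorphism is determined by it
-/

set_option autoImplicit false
set_option linter.unusedSectionVars false
set_option linter.unusedVariables false

namespace Pool.Agent.Helper28K9.TG

open SimpleGraph

section

variable {n : ℕ} [NeZero n] {d : ℕ}

/-- separation in coordinates -/
lemma sep_coord (hn : 5 ≤ n) {T : SimpleGraph (ZMod n)} (hT : T.IsTree)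
    (hN : NC T) (u : ZMod n) {p q : ℕ} (hpq : p + 2 ≤ q) (hq : q < n) (hnot : ¬ (p = 0 ∧ q = n - 1))
    {a b : ℕ} (ha : a < n) (hb : b < n) (hab : a ≠ b)
    (hE : E T = insert s(u + (p : ZMod n), u + (q : ZMod n))
      (bd n \ {c (u + (a : ZMod n)), c (u + (b : ZMod n))})) :
    ((p ≤ a ∧ a < q) ∧ ¬ (p ≤ b ∧ b < q)) ∨ ((p ≤ b ∧ b < q) ∧ ¬ (p ≤ a ∧ a < q)) := by
  have e1 : u + (q : ZMod n) = u + (p : ZMod n) + ((q - p : ℕ) : ZMod n) := by
    rw [← coord_add, show p + (q - p) = q by omega]
  rw [e1] at hE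
  have hne : u + (a : ZMod n) ≠ u + (b : ZMod n) := fun h => hab (coord_inj u ha hb h)
  have key : ∀ x y a₂ b₂ : ℕ, x < n → y < n → a₂ < q - p → q - p ≤ b₂ → b₂ < n →
      u + (x : ZMod n) = u + (p : ZMod n) + (a₂ : ZMod n) →
      u + (y : ZMod n) = u + (p : ZMod n) + (b₂ : ZMod n) →
      (p ≤ x ∧ x < q) ∧ ¬ (p ≤ y ∧ y < q) := by
    intro x y a₂ b₂ hx hy ha₂ hb₂ hb₂n h1 h2
    rw [← coord_add] at h1 h2
    have h3 := coord_inj u hx (by omega) h1
    refine ⟨by omega, ?_⟩
    by_cases h4 : p + b₂ < n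
    · have h5 := coord_inj u hy h4 h2
      omega
    · obtain ⟨r, hr⟩ : ∃ r, p + b₂ = n + r := ⟨p + b₂ - n, by omega⟩
      rw [hr, coord_add, coord_n] at h2
      have h5 := coord_inj u hy (by omega) h2
      omega
  rcases sep hn hT hN (v := u + (p : ZMod n)) (k := q - p) (by omega) (by omega) hne hE with
    ⟨a₂, b₂, h1, h2, h3, h4, h5⟩ | ⟨a₂, b₂, h1, h2, h3, h4, h5⟩
  · exact Or.inl (key a b a₂ b₂ ha hb h1 h2 h3 h4 h5)
  · exact Or.inr (key b a a₂ b₂ hb ha h1 h2 h3 h4 h5)

lemma exists_T (hd : 3 ≤ d) (u : ZMod n) {k a b : ℕ} (hk : 2 ≤ k) (hkn : k + 2 ≤ n)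
    (ha : a < k) (hkb : k ≤ b) (hb : b < n) :
    ∃ T : V n d, E T.1 = insert s(u, u + (k : ZMod n))
      (bd n \ {c (u + (a : ZMod n)), c (u + (b : ZMod n))}) := by
  obtain ⟨G, hG, hE⟩ := exists_one (n := n) hd u hk hkn ha hkb hb
  exact ⟨⟨G, hG⟩, hE⟩

lemma sigma_succ (hn : 5 ≤ n) (hd : 3 ≤ d)
    (φ : TGr n d ≃g TGr n d) {σ : ZMod n → ZMod n} (hσi : Function.Injective σ)
    (hσ : ∀ (W : V n d) (i : ZMod n), E W.1 = bd n \ {c i} → E (φ W).1 = bd n \ {c (σ i)})
    (u : ZMod n) : σ (u + 1) = σ u + 1 ∨ σ (u + 1) = σ u - 1 := by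
  obtain ⟨τ, hτb, hτ⟩ := const_diag hn hd φ hσi hσ u (k := 2) le_rfl (by omega)
  have hτd : ¬ τ.IsDiag := by
    obtain ⟨T, hT⟩ := exists_T (d := d) hd u (k := 2) (a := 0) (b := 2) le_rfl (by omega) (by omega) le_rfl
      (by omega)
    have h1 := hτ 0 2 (by omega) le_rfl (by omega) T hT
    apply E_not_diag (G := (φ T).1)
    rw [h1]
    exact Finset.mem_insert_self _ _
  obtain ⟨v, p, q, hp0, hpq, hq, hnot, hτe⟩ : ∃ (v : ZMod n) (p q : ℕ), p = 0 ∧ p + 2 ≤ q ∧ q < n ∧
      ¬ (p = 0 ∧ q = n - 1) ∧ τ = s(v + (p : ZMod n), v + (q : ZMod n)) := by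
    obtain ⟨p, q, hpq, hq, hnot, hτe⟩ := diag_coord hτb hτd (0 : ZMod n)
    refine ⟨0 + (p : ZMod n), 0, q - p, rfl, by omega, by omega, by omega, ?_⟩
    rw [hτe, ← coord_add, ← coord_add, show p + 0 = p by omega, show p + (q - p) = q by omega]
  -- coordinates of `σ x`
  have hco : ∀ x, ∃ m : ℕ, m < n ∧ σ x = v + (m : ZMod n) := fun x => exists_coord v (σ x)
  choose m hm hσm using hco
  have hminj : ∀ x y, m x = m y → x = y := by
    intro x y h
    apply hσi
    rw [hσm x, hσm y, h]
  obtain ⟨P, hP⟩ : ∃ P : ℕ → Prop, ∀ r, P r ↔ (p ≤ r ∧ r < q) := ⟨_, fun r => Iff.rfl⟩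
  have hsep : ∀ a b : ℕ, a < 2 → 2 ≤ b → b < n →
      (P (m (u + (a : ZMod n))) ∧ ¬ P (m (u + (b : ZMod n)))) ∨
      (P (m (u + (b : ZMod n))) ∧ ¬ P (m (u + (a : ZMod n)))) := by
    intro a b ha hb hbn
    rw [hP, hP]
    obtain ⟨T, hT⟩ := exists_T (d := d) hd u (k := 2) (a := a) (b := b) le_rfl (by omega) ha hb hbn
    have h1 := hτ a b ha hb hbn T hT
    rw [hτe, hσm (u + (a : ZMod n)), hσm (u + (b : ZMod n))] at h1
    refine sep_coord hn (φ T).2.1 (φ T).2.2.1 v hpq hq hnot (hm _) (hm _) ?_ h1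
    intro h
    have := coord_inj u (by omega) hbn (hminj _ _ h)
    omega
  have hsurj : Function.Surjective σ := Finite.injective_iff_surjective.1 hσi
  -- every coordinate on the same side as `m u` is `m u` or `m (u + 1)`
  have h0 : u + ((0 : ℕ) : ZMod n) = u := by simp
  have h1 : u + ((1 : ℕ) : ZMod n) = u + 1 := by simp
  have hside : P (m u) ↔ P (m (u + 1)) := by
    have s1 := hsep 0 2 (by omega) le_rfl (by omega)
    have s2 := hsep 1 2 (by omega) le_rfl (by omega)
    rw [h0] at s1
    rw [h1] at s2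
    tauto
  have hall : ∀ r : ℕ, r < n → (P r ↔ P (m u)) →
      r = m u ∨ r = m (u + 1) := by
    intro r hr hiff
    obtain ⟨x, hx⟩ := hsurj (v + (r : ZMod n))
    have hmx : m x = r := by
      rw [hσm x] at hx
      exact coord_inj v (hm x) hr hx
    obtain ⟨b, hb, rfl⟩ := exists_coord u x
    by_cases hb0 : b = 0
    · subst hb0
      rw [h0] at hmx
      exact Or.inl hmx.symm
    by_cases hb1 : b = 1
    · subst hb1
      rw [h1] at hmx
      exact Or.inr hmx.symm
    exfalso
    have s1 := hsep 0 b (by omega) (by omega) hb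
    rw [h0, hmx] at s1
    tauto
  have hne : m u ≠ m (u + 1) := by
    intro h
    have h2 := hminj _ _ h
    rw [← h1] at h2
    have h3 : u + ((0 : ℕ) : ZMod n) = u + ((1 : ℕ) : ZMod n) := by rw [h0]; exact h2
    have := coord_inj u (by omega) (by omega) h3
    omega
  have hmu := hm u
  have hmu1 := hm (u + 1)
  rw [hP, hP] at hside
  rcases lt_or_gt_of_ne hne with h | h
  · left
    have h2 : m (u + 1) = m u + 1 := by
      by_contra hcon
      have h3 := hall (m u + 1) (by omega) (by rw [hP, hP]; constructor <;> omega)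
      omega
    rw [hσm (u + 1), hσm u, h2, coord_succ]
  · right
    have h2 : m u = m (u + 1) + 1 := by
      by_contra hcon
      have h3 := hall (m (u + 1) + 1) (by omega) (by rw [hP, hP]; constructor <;> omega)
      omega
    rw [hσm (u + 1), hσm u, h2, coord_succ]
    ring

lemma sigma_dihedral (hn : 5 ≤ n) (hd : 3 ≤ d)
    (φ : TGr n d ≃g TGr n d) {σ : ZMod n → ZMod n} (hσi : Function.Injective σ)
    (hσ : ∀ (W : V n d) (i : ZMod n), E W.1 = bd n \ {c i} → E (φ W).1 = bd n \ {c (σ i)}) :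
    (∀ x, σ x = σ 0 + x) ∨ (∀ x, σ x = σ 0 - x) := by
  have hs := sigma_succ hn hd φ hσi hσ
  have h2 : ∀ x : ZMod n, σ (x + 1 + 1) ≠ σ x := by
    intro x h
    have h3 := hσi h
    have h4 : x + ((2 : ℕ) : ZMod n) = x + ((0 : ℕ) : ZMod n) := by
      push_cast
      rw [add_zero]
      calc x + 2 = x + 1 + 1 := by ring
        _ = x := h3
    have := coord_inj x (by omega) (by omega) h4
    omega
  rcases hs 0 with h | h
  · left
    have key : ∀ k : ℕ, σ ((k : ZMod n) + 1) = σ (k : ZMod n) + 1 := by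
      intro k
      induction k with
      | zero => simpa using h
      | succ k ih =>
        rcases hs ((k : ZMod n) + 1) with h3 | h3
        · push_cast
          exact h3
        · exfalso
          apply h2 (k : ZMod n)
          rw [h3, ih]
          ring
    have key2 : ∀ k : ℕ, σ (k : ZMod n) = σ 0 + (k : ZMod n) := by
      intro k
      induction k with
      | zero => simp
      | succ k ih =>
        push_cast
        rw [key, ih]
        ring
    intro x
    have := key2 x.val
    rwa [ZMod.natCast_zmod_val] at this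
  · right
    have key : ∀ k : ℕ, σ ((k : ZMod n) + 1) = σ (k : ZMod n) - 1 := by
      intro k
      induction k with
      | zero => simpa using h
      | succ k ih =>
        rcases hs ((k : ZMod n) + 1) with h3 | h3
        · exfalso
          apply h2 (k : ZMod n)
          rw [h3, ih]
          ring
        · push_cast
          exact h3
    have key2 : ∀ k : ℕ, σ (k : ZMod n) = σ 0 - (k : ZMod n) := by
      intro k
      induction k with
      | zero => simp
      | succ k ih =>
        push_cast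
        rw [key, ih]
        ring
    intro x
    have := key2 x.val
    rwa [ZMod.natCast_zmod_val] at this

lemma fixed_one (hn : 5 ≤ n) (hd : 3 ≤ d) (φ : TGr n d ≃g TGr n d)
    (hσ : ∀ (W : V n d) (i : ZMod n), E W.1 = bd n \ {c i} → E (φ W).1 = bd n \ {c i})
    {T : V n d} {f : Sym2 (ZMod n)} (hf : f ∈ E T.1) (hfb : f ∉ bd n)
    (huniq : ∀ e ∈ E T.1, e ∉ bd n → e = f) : φ T = T := by
  obtain ⟨p₀, q₀, hpq₀, hq₀, hnot₀, hfe⟩ := diag_coord hfb (E_not_diag hf) (0 : ZMod n)
  set u : ZMod n := 0 + (p₀ : ZMod n) with hu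
  set k := q₀ - p₀ with hk
  have hfe' : f = s(u, u + (k : ZMod n)) := by
    rw [hfe, hu, hk, ← coord_add, show p₀ + (q₀ - p₀) = q₀ by omega]
  obtain ⟨a, b, ha, hb, hbn, hE'⟩ := one_diag T.2.1 T.2.2.1 (u := u) (k := k) (by omega) (by omega)
    (by rw [← hfe']; exact hf) (by rw [← hfe']; exact huniq)
  have hE : E T.1 = insert s(u, u + (k : ZMod n))
      (bd n \ {c (u + (a : ZMod n)), c (u + (b : ZMod n))}) := hE'
  obtain ⟨τ, hτb, hτ⟩ := const_diag hn hd φ (σ := id) Function.injective_id hσ u (k := k)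
    (by omega) (by omega)
  simp only [id] at hτ
  have hτd : ¬ τ.IsDiag := by
    have h1 := hτ a b ha hb hbn T hE
    apply E_not_diag (G := (φ T).1)
    rw [h1]
    exact Finset.mem_insert_self _ _
  obtain ⟨p, q, hpq, hq, hnot, hτe⟩ := diag_coord hτb hτd u
  have hsep : ∀ a b : ℕ, a < k → k ≤ b → b < n →
      ((p ≤ a ∧ a < q) ∧ ¬ (p ≤ b ∧ b < q)) ∨ ((p ≤ b ∧ b < q) ∧ ¬ (p ≤ a ∧ a < q)) := by
    intro a b ha hb hbn
    obtain ⟨T', hT'⟩ := exists_T (d := d) hd u (k := k) (a := a) (b := b) (by omega) (by omega) ha hb hbn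
    have h1 := hτ a b ha hb hbn T' hT'
    rw [hτe] at h1
    exact sep_coord hn (φ T').2.1 (φ T').2.2.1 u hpq hq hnot (by omega) hbn (by omega) h1
  have s1 := hsep 0 (n - 1) (by omega) (by omega) (by omega)
  have s2 := hsep (k - 1) (n - 1) (by omega) (by omega) (by omega)
  have s3 := hsep 0 k (by omega) (by omega) (by omega)
  have hp : p = 0 := by omega
  have hqk : q = k := by omega
  have hτf : τ = s(u, u + (k : ZMod n)) := by
    rw [hτe, hp, hqk]
    simp
  apply V_ext
  rw [hτ a b ha hb hbn T hE, hE, hτf]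

lemma fixed_all (hn : 5 ≤ n) (hd : 3 ≤ d) (φ : TGr n d ≃g TGr n d)
    (hσ : ∀ (W : V n d) (i : ZMod n), E W.1 = bd n \ {c i} → E (φ W).1 = bd n \ {c i})
    (T : V n d) : φ T = T := by
  have hA : ∀ X Y : V n d, A (φ X).1 (φ Y).1 ↔ A X.1 Y.1 := fun X Y => φ.map_rel_iff
  induction hm : (E T.1 \ bd n).card using Nat.strong_induction_on generalizing T with
  | _ m ih =>
    rcases Nat.lt_or_ge m 2 with h2 | h2
    · rcases Nat.lt_or_ge m 1 with h1 | h1
      · -- no diagonal
        have h3 : E T.1 \ bd n = ∅ := Finset.card_eq_zero.1 (by omega)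
        have h4 : E T.1 ⊆ bd n := Finset.sdiff_eq_empty_iff_subset.1 h3
        obtain ⟨i, hi⟩ := zero_diag (by omega) T.2.1 h4
        have hi' : E T.1 = bd n \ {c i} := hi
        exact V_ext (by rw [hσ T i hi', hi'])
      · obtain ⟨f, hf⟩ := Finset.card_eq_one.1 (show (E T.1 \ bd n).card = 1 by omega)
        have hf1 : f ∈ E T.1 \ bd n := by rw [hf]; simp
        rw [Finset.mem_sdiff] at hf1
        refine fixed_one hn hd φ hσ hf1.1 hf1.2 ?_
        intro e he heb
        have : e ∈ E T.1 \ bd n := Finset.mem_sdiff.2 ⟨he, heb⟩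
        rw [hf, Finset.mem_singleton] at this
        exact this
    · obtain ⟨g₁, hg₁, g₂, hg₂, hgg⟩ := Finset.one_lt_card.1
        (show 1 < (E T.1 \ bd n).card by omega)
      rw [Finset.mem_sdiff] at hg₁ hg₂
      obtain ⟨p, q, e, f, G₁, G₂, hpq, hef, hp, hq, hpb, hqb, heb, hfb, heT, hfT, hV₁, hV₂, hE₁', hE₂'⟩ :=
        two_exchanges (d := d) (by omega) T.2 hg₁.1 hg₂.1 hg₁.2 hg₂.2 hgg
      have hE₁ : E G₁ = insert e (E T.1 \ {p}) := hE₁'
      have hE₂ : E G₂ = insert f (E T.1 \ {q}) := hE₂'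
      have gen : ∀ (p e : Sym2 (ZMod n)) (G : SimpleGraph (ZMod n)) (hG : IsV d G), p ∈ E T.1 →
          p ∉ bd n → e ∈ bd n → e ∉ E T.1 → E G = insert e (E T.1 \ {p}) →
          φ ⟨G, hG⟩ = ⟨G, hG⟩ ∧ A (φ T).1 G := by
        intro p e G hG hp hpb heb heT hE
        have h3 : E G \ bd n = (E T.1 \ bd n) \ {p} := by
          ext x
          rw [hE]
          simp only [Finset.mem_sdiff, Finset.mem_insert, Finset.mem_singleton]
          constructor
          · rintro ⟨h | h, hx⟩
            · exact absurd (h ▸ heb) hx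
            · exact ⟨⟨h.1, hx⟩, h.2⟩
          · rintro ⟨⟨h, hx⟩, hxp⟩
            exact ⟨Or.inr ⟨h, hxp⟩, hx⟩
        have h4 : (E G \ bd n).card < m := by
          rw [h3, Finset.card_sdiff_of_subset, Finset.card_singleton]
          · omega
          · rw [Finset.singleton_subset_iff, Finset.mem_sdiff]
            exact ⟨hp, hpb⟩
        have h5 := ih _ h4 ⟨G, hG⟩ rfl
        refine ⟨h5, ?_⟩
        have h6 : A T.1 G := by
          rw [A_iff T.2.1 (by omega), Finset.card_eq_one]
          refine ⟨p, ?_⟩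
          ext x
          rw [hE]
          simp only [Finset.mem_sdiff, Finset.mem_insert, Finset.mem_singleton]
          constructor
          · rintro ⟨h, hx⟩
            by_contra hxp
            exact hx (Or.inr ⟨h, hxp⟩)
          · rintro rfl
            refine ⟨hp, ?_⟩
            rintro (h | h)
            · exact hpb (h ▸ heb)
            · exact h.2 rfl
        have h7 := (hA T ⟨G, hG⟩).2 h6
        rw [h5] at h7
        exact h7
      obtain ⟨-, hA₁⟩ := gen p e G₁ hV₁ hp hpb heb heT hE₁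
      obtain ⟨-, hA₂⟩ := gen q f G₂ hV₂ hq hqb hfb hfT hE₂
      -- `φ T` has at least `m` diagonals
      set S := φ T with hS
      have hSm : m ≤ (E S.1 \ bd n).card := by
        by_contra hcon
        push Not at hcon
        have h3 := ih _ hcon S rfl
        have h4 : S = T := φ.injective (by rw [h3])
        rw [h4] at hcon
        omega
      have gen2 : ∀ (p e : Sym2 (ZMod n)) (G : SimpleGraph (ZMod n)) (hG : IsV d G), p ∈ E T.1 →
          p ∉ bd n → e ∈ bd n → e ∉ E T.1 → E G = insert e (E T.1 \ {p}) → A S.1 G →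
          (∀ x ∈ E T.1, x ∉ bd n → x ≠ p → x ∈ E S.1) ∧
          (∀ x ∈ E S.1, x ∈ bd n → x ∈ E T.1 ∨ x = e) ∧ (E S.1 \ bd n).card ≤ m := by
        intro p e G hG hp hpb heb heT hE hAG
        obtain ⟨y, hy⟩ := A_exists S.2.1 (by omega) hAG
        have h3 : E G \ bd n = (E T.1 \ bd n) \ {p} := by
          ext x
          rw [hE]
          simp only [Finset.mem_sdiff, Finset.mem_insert, Finset.mem_singleton]
          constructor
          · rintro ⟨h | h, hx⟩
            · exact absurd (h ▸ heb) hx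
            · exact ⟨⟨h.1, hx⟩, h.2⟩
          · rintro ⟨⟨h, hx⟩, hxp⟩
            exact ⟨Or.inr ⟨h, hxp⟩, hx⟩
        have h4 : (E G \ bd n).card + 1 = m := by
          rw [h3, Finset.card_sdiff_of_subset, Finset.card_singleton]
          · omega
          · rw [Finset.singleton_subset_iff, Finset.mem_sdiff]
            exact ⟨hp, hpb⟩
        have h5 : E S.1 \ bd n ⊆ insert y (E G \ bd n) := by
          intro x hx
          rw [Finset.mem_sdiff] at hx
          rw [Finset.mem_insert, Finset.mem_sdiff]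
          by_cases hxG : x ∈ E G
          · exact Or.inr ⟨hxG, hx.2⟩
          · have : x ∈ E S.1 \ E G := Finset.mem_sdiff.2 ⟨hx.1, hxG⟩
            rw [hy, Finset.mem_singleton] at this
            exact Or.inl this
        have h6 : E S.1 \ bd n = insert y (E G \ bd n) := by
          apply Finset.eq_of_subset_of_card_le h5
          have := Finset.card_insert_le y (E G \ bd n)
          omega
        have hyb : y ∉ bd n := by
          intro hyb
          have : y ∈ E S.1 \ bd n := by rw [h6]; exact Finset.mem_insert_self _ _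
          exact (Finset.mem_sdiff.1 this).2 hyb
        refine ⟨?_, ?_, ?_⟩
        · intro x hx hxb hxp
          have h7 : x ∈ E G \ bd n := by
            rw [h3]
            simp only [Finset.mem_sdiff, Finset.mem_singleton]
            exact ⟨⟨hx, hxb⟩, hxp⟩
          have h8 : x ∈ E S.1 \ bd n := by
            rw [h6]
            exact Finset.mem_insert_of_mem h7
          exact (Finset.mem_sdiff.1 h8).1
        · intro x hx hxb
          have hxG : x ∈ E G := by
            by_contra hxG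
            have : x ∈ E S.1 \ E G := Finset.mem_sdiff.2 ⟨hx, hxG⟩
            rw [hy, Finset.mem_singleton] at this
            exact hyb (this ▸ hxb)
          rw [hE, Finset.mem_insert, Finset.mem_sdiff] at hxG
          rcases hxG with h | h
          · exact Or.inr h
          · exact Or.inl h.1
        · rw [h6]
          have := Finset.card_insert_le y (E G \ bd n)
          omega
      obtain ⟨d₁, b₁, hSle⟩ := gen2 p e G₁ hV₁ hp hpb heb heT hE₁ hA₁
      obtain ⟨d₂, b₂, -⟩ := gen2 q f G₂ hV₂ hq hqb hfb hfT hE₂ hA₂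
      -- `S ⊆ T`
      have hdiag : E T.1 \ bd n ⊆ E S.1 \ bd n := by
        intro x hx
        rw [Finset.mem_sdiff] at hx ⊢
        refine ⟨?_, hx.2⟩
        by_cases hxp : x = p
        · exact d₂ x hx.1 hx.2 (by rw [hxp]; exact hpq)
        · exact d₁ x hx.1 hx.2 hxp
      have hSb : E S.1 ∩ bd n ⊆ E T.1 ∩ bd n := by
        intro x hx
        rw [Finset.mem_inter] at hx ⊢
        refine ⟨?_, hx.2⟩
        rcases b₁ x hx.1 hx.2 with h | h
        · exact h
        · rcases b₂ x hx.1 hx.2 with h' | h'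
          · exact h'
          · exact absurd (h.symm.trans h') hef
      have c1 := (tree_iff.1 T.2.1).2
      have c2 := (tree_iff.1 S.2.1).2
      have c3 := Finset.card_sdiff_add_card_inter (E T.1) (bd n)
      have c4 := Finset.card_sdiff_add_card_inter (E S.1) (bd n)
      have c5 := Finset.card_le_card hdiag
      have c6 := Finset.card_le_card hSb
      have e5 : E T.1 \ bd n = E S.1 \ bd n := Finset.eq_of_subset_of_card_le hdiag (by omega)
      have e6 : E S.1 ∩ bd n = E T.1 ∩ bd n := Finset.eq_of_subset_of_card_le hSb (by omega)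
      apply V_ext
      rw [← Finset.sdiff_union_inter (E S.1) (bd n), ← Finset.sdiff_union_inter (E T.1) (bd n),
        e5, e6]

end

end Pool.Agent.Helper28K9.TG
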