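import Mathlib
import Pool.Agent.Helper28K9.TG.Fix

/-!
# Plane spanning trees of a convex polygon: the automorphism group is dihedral
-/

set_option autoImplicit false
set_option linter.unusedSectionVars false
set_option linter.unusedVariables false

namespace Pool.Agent.Helper28K9.TG

open SimpleGraph

section general

/-- spanning trees without edges in relation `R`, of maximum degree at most `d` -/
def IsPT {α : Type*} (R : α → α → α → α → Prop) (d : ℕ) (G : SimpleGraph α) : Prop :=
  G.IsTree ∧ (∀ a b c e, G.Adj a b → G.Adj c e → ¬ R a b c e) ∧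
    ∀ v, (G.neighborSet v).ncard ≤ d

/-- the tree graph -/
def TreeGraph {α : Type*} (R : α → α → α → α → Prop) (d : ℕ) :
    SimpleGraph {G : SimpleGraph α // IsPT R d G} where
  Adj G H := G ≠ H ∧ (G.1.edgeSet ∩ H.1.edgeSet).ncard = Nat.card α - 2
  symm := ⟨fun _ _ h => ⟨h.1.symm, by rw [Set.inter_comm]; exact h.2⟩⟩
  loopless := ⟨fun _ h => h.1 rfl⟩

variable {α β : Type*}

lemma simpleGraph_adj (e : α ≃ β) (G : SimpleGraph α) (x y : β) :
    (e.simpleGraph G).Adj x y ↔ G.Adj (e.symm x) (e.symm y) := Iff.rfl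

lemma isTree_relabel (e : α ≃ β) (G : SimpleGraph α) :
    (e.simpleGraph G).IsTree ↔ G.IsTree :=
  (Iso.comap e.symm G).isTree_iff

lemma edgeSet_relabel (e : α ≃ β) (G : SimpleGraph α) :
    (e.simpleGraph G).edgeSet = Sym2.map e '' G.edgeSet := by
  ext x
  induction x using Sym2.ind with
  | _ x y =>
    rw [mem_edgeSet, simpleGraph_adj, Set.mem_image]
    constructor
    · intro h
      exact ⟨s(e.symm x, e.symm y), h, by simp⟩
    · rintro ⟨z, hz, h⟩
      induction z using Sym2.ind with
      | _ a b =>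
        rw [Sym2.map_mk, Sym2.eq_iff] at h
        rcases h with ⟨rfl, rfl⟩ | ⟨rfl, rfl⟩
        · simpa using hz
        · simpa using hz.symm

lemma ncard_relabel (e : α ≃ β) (G H : SimpleGraph α) :
    ((e.simpleGraph G).edgeSet ∩ (e.simpleGraph H).edgeSet).ncard =
      (G.edgeSet ∩ H.edgeSet).ncard := by
  rw [edgeSet_relabel, edgeSet_relabel, ← Set.image_inter (Sym2.map.injective e.injective),
    Set.ncard_image_of_injective _ (Sym2.map.injective e.injective)]

lemma isPT_relabel {R : α → α → α → α → Prop} {R' : β → β → β → β → Prop} (e : α ≃ β) (d : ℕ)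
    (h : ∀ a b c f, a ≠ b → c ≠ f → (R a b c f ↔ R' (e a) (e b) (e c) (e f)))
    (G : SimpleGraph α) : IsPT R d G ↔ IsPT R' d (e.simpleGraph G) := by
  unfold IsPT
  rw [isTree_relabel]
  refine and_congr Iff.rfl (and_congr ?_ ?_)
  · constructor
    · intro h1 a b c f hab hcf hR
      rw [simpleGraph_adj] at hab hcf
      apply h1 _ _ _ _ hab hcf
      rw [h _ _ _ _ hab.ne hcf.ne]
      simpa using hR
    · intro h1 a b c f hab hcf hR
      apply h1 (e a) (e b) (e c) (e f)
      · rw [simpleGraph_adj]; simpa using hab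
      · rw [simpleGraph_adj]; simpa using hcf
      · exact (h _ _ _ _ hab.ne hcf.ne).1 hR
  · have key : ∀ x, ((e.simpleGraph G).neighborSet x) = e '' (G.neighborSet (e.symm x)) := by
      intro x
      ext y
      rw [mem_neighborSet, simpleGraph_adj, Set.mem_image]
      constructor
      · intro h
        exact ⟨e.symm y, h, by simp⟩
      · rintro ⟨z, hz, rfl⟩
        simpa using hz
    constructor
    · intro h1 v
      rw [key, Set.ncard_image_of_injective _ e.injective]
      exact h1 _
    · intro h1 v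
      have := h1 (e v)
      rw [key, Set.ncard_image_of_injective _ e.injective] at this
      simpa using this

/-- relabelling the vertices -/
def relabel {R : α → α → α → α → Prop} {R' : β → β → β → β → Prop} (e : α ≃ β) (d : ℕ)
    (h : ∀ a b c f, a ≠ b → c ≠ f → (R a b c f ↔ R' (e a) (e b) (e c) (e f))) :
    TreeGraph R d ≃g TreeGraph R' d where
  toEquiv := e.simpleGraph.subtypeEquiv (isPT_relabel e d h)
  map_rel_iff' := by
    intro G H
    simp only [TreeGraph, Equiv.subtypeEquiv_apply, ncard_relabel, Nat.card_congr e, ne_eq,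
      Subtype.mk.injEq, EmbeddingLike.apply_eq_iff_eq, ← Subtype.ext_iff]

lemma relabel_coe {R : α → α → α → α → Prop} {R' : β → β → β → β → Prop} (e : α ≃ β) (d : ℕ)
    (h : ∀ a b c f, a ≠ b → c ≠ f → (R a b c f ↔ R' (e a) (e b) (e c) (e f)))
    (G : {G : SimpleGraph α // IsPT R d G}) : (relabel e d h G).1 = e.simpleGraph G.1 := rfl

/-- conjugation -/
def conj {α β : Type*} {G : SimpleGraph α} {H : SimpleGraph β} (e : G ≃g H) :
    (G ≃g G) ≃* (H ≃g H) where
  toFun f := (e.symm.trans f).trans e
  invFun f := (e.trans f).trans e.symm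
  left_inv f := by ext x; simp
  right_inv f := by ext x; simp
  map_mul' f g := by ext x; simp

end general

section

variable {n : ℕ} [NeZero n]

lemma TreeGraph_eq (hn : 2 ≤ n) (d : ℕ) :
    (TreeGraph (X (n := n)) d : SimpleGraph (V n d)) = TGr n d := by
  classical
  ext G H
  change (G ≠ H ∧ (G.1.edgeSet ∩ H.1.edgeSet).ncard = Nat.card (ZMod n) - 2) ↔ A G.1 H.1
  rw [A_def, Nat.card_zmod]
  have h1 : (G.1.edgeSet ∩ H.1.edgeSet).ncard = (E G.1 ∩ E H.1).card := by
    rw [← Set.ncard_coe_finset]
    congr 1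
    ext x
    simp
  rw [h1, ne_eq, ne_eq, Subtype.ext_iff]
  constructor
  · rintro ⟨h2, h3⟩
    exact ⟨h2, by omega⟩
  · rintro ⟨h2, h3⟩
    exact ⟨h2, by omega⟩

/-- the dihedral group acting on the vertices of the polygon -/
def dperm (n : ℕ) : DihedralGroup n → Equiv.Perm (ZMod n)
  | .r i => Equiv.addRight i
  | .sr i => Equiv.subLeft (-i)

@[simp] lemma dperm_r (i x : ZMod n) : dperm n (.r i) x = x + i := rfl
@[simp] lemma dperm_sr (i x : ZMod n) : dperm n (.sr i) x = -i - x := rfl

lemma dperm_one : dperm n 1 = 1 := by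
  ext x
  rw [DihedralGroup.one_def, dperm_r, add_zero]
  rfl

lemma dperm_mul (g h : DihedralGroup n) : dperm n (g * h) = dperm n g * dperm n h := by
  ext x
  rcases g with i | i <;> rcases h with j | j
  · simp only [DihedralGroup.r_mul_r, dperm_r, Equiv.Perm.coe_mul, Function.comp_apply]
    ring
  · simp only [DihedralGroup.r_mul_sr, dperm_r, dperm_sr, Equiv.Perm.coe_mul, Function.comp_apply]
    ring
  · simp only [DihedralGroup.sr_mul_r, dperm_r, dperm_sr, Equiv.Perm.coe_mul, Function.comp_apply]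
    ring
  · simp only [DihedralGroup.sr_mul_sr, dperm_r, dperm_sr, Equiv.Perm.coe_mul, Function.comp_apply]
    ring

lemma val_sub_rev (x y : ZMod n) : (x - y).val = if y - x = 0 then 0 else n - (y - x).val := by
  rw [← neg_sub y x, ZMod.neg_val]

lemma cr_neg (r a b x y : ZMod n) : Cr (r - a) (r - b) (r - x) (r - y) ↔ Cr a b y x := by
  unfold Cr
  have e : ∀ z w : ZMod n, (r - z) - (r - w) = w - z := fun z w => by ring
  rw [e, e, e, val_sub_rev a x, val_sub_rev a b, val_sub_rev a y]
  have hx := ZMod.val_lt (x - a)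
  have hb := ZMod.val_lt (b - a)
  have hy := ZMod.val_lt (y - a)
  have z : ∀ z : ZMod n, z = 0 ↔ z.val = 0 := fun z => (ZMod.val_eq_zero z).symm
  simp only [z]
  split_ifs <;> omega

lemma X_inv (g : DihedralGroup n) (a b x y : ZMod n) :
    X a b x y ↔ X (dperm n g a) (dperm n g b) (dperm n g x) (dperm n g y) := by
  rcases g with i | i
  · simp only [dperm_r, X, Cr, add_sub_add_right_eq_sub]
  · simp only [dperm_sr, X, cr_neg]
    tauto

/-- the action of the dihedral group on the tree graph -/
noncomputable def act (n : ℕ) [NeZero n] (d : ℕ) :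
    DihedralGroup n →* (TreeGraph (X (n := n)) d ≃g TreeGraph (X (n := n)) d) where
  toFun g := relabel (dperm n g) d fun a b x y _ _ => X_inv g a b x y
  map_one' := by
    ext G : 1
    apply Subtype.ext
    rw [relabel_coe, dperm_one]
    ext x y
    rw [simpleGraph_adj]
    rfl
  map_mul' g h := by
    ext G : 1
    apply Subtype.ext
    rw [relabel_coe, RelIso.mul_apply, relabel_coe, relabel_coe, dperm_mul]
    ext x y
    rw [simpleGraph_adj, simpleGraph_adj, simpleGraph_adj]
    rfl

lemma act_coe (d : ℕ) (g : DihedralGroup n) (G : {G : SimpleGraph (ZMod n) // IsPT X d G}) :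
    (act n d g G).1 = (dperm n g).simpleGraph G.1 := rfl

/-- action on the boundary edges -/
def rho (n : ℕ) : DihedralGroup n → ZMod n → ZMod n
  | .r s, i => i + s
  | .sr s, i => -s - i - 1

lemma map_c (g : DihedralGroup n) (i : ZMod n) : Sym2.map (dperm n g) (c i) = c (rho n g i) := by
  rcases g with s | s
  · simp only [c, rho, Sym2.map_mk, dperm_r]
    congr 1
    ring_nf
  · simp only [c, rho, Sym2.map_mk, dperm_sr]
    rw [Sym2.eq_swap]
    congr 1
    · ring
    · ring

lemma rho_surj (g : DihedralGroup n) : Function.Surjective (rho n g) := by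
  intro i
  rcases g with s | s
  · exact ⟨i - s, by simp [rho]⟩
  · exact ⟨-s - i - 1, by simp only [rho]; ring⟩


lemma E_act (d : ℕ) (g : DihedralGroup n) (G : {G : SimpleGraph (ZMod n) // IsPT X d G})
    (i : ZMod n) (hG : E G.1 = bd n \ {c i}) :
    E (act n d g G).1 = bd n \ {c (rho n g i)} := by
  ext x
  rw [mem_E, act_coe, edgeSet_relabel, Set.mem_image, Finset.mem_sdiff, Finset.mem_singleton]
  have hinj := Sym2.map.injective (dperm n g).injective
  constructor
  · rintro ⟨y, hy, rfl⟩
    rw [← mem_E, hG, Finset.mem_sdiff, Finset.mem_singleton, mem_bd] at hy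
    obtain ⟨⟨j, rfl⟩, hji⟩ := hy
    refine ⟨?_, ?_⟩
    · rw [map_c]
      exact c_mem _
    · intro h
      rw [← map_c] at h
      exact hji (hinj h)
  · rintro ⟨h1, h2⟩
    obtain ⟨j, rfl⟩ := mem_bd.1 h1
    obtain ⟨j', rfl⟩ := rho_surj g j
    refine ⟨c j', ?_, map_c g j'⟩
    rw [← mem_E, hG, Finset.mem_sdiff, Finset.mem_singleton]
    refine ⟨c_mem _, fun h => h2 ?_⟩
    rw [← map_c, ← map_c, h]

/-- the automorphism group of the tree graph of a convex polygon -/
theorem aut_dihedral (hn : 5 ≤ n) {d : ℕ} (hd : 3 ≤ d) :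
    Nonempty ((TreeGraph (X (n := n)) d ≃g TreeGraph (X (n := n)) d) ≃* DihedralGroup n) := by
  have hΓ := TreeGraph_eq (n := n) (by omega) d
  have hfix : ∀ (Γ : SimpleGraph (V n d)), Γ = TGr n d → ∀ φ : Γ ≃g Γ,
      (∀ (W : V n d) (i : ZMod n), E W.1 = bd n \ {c i} → E (φ W).1 = bd n \ {c i}) →
      ∀ T, φ T = T := by
    rintro Γ rfl φ hφ T
    exact fixed_all hn hd φ hφ T
  have hsig : ∀ (Γ : SimpleGraph (V n d)), Γ = TGr n d → ∀ φ : Γ ≃g Γ,
      ∃ σ : ZMod n → ZMod n,
        (∀ (W : V n d) (i : ZMod n), E W.1 = bd n \ {c i} → E (φ W).1 = bd n \ {c (σ i)}) ∧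
        ((∀ x, σ x = σ 0 + x) ∨ (∀ x, σ x = σ 0 - x)) := by
    rintro Γ rfl φ
    obtain ⟨σ, hσi, hσ⟩ := exists_sigma hn hd φ
    exact ⟨σ, hσ, sigma_dihedral hn hd φ hσi hσ⟩
  have hfix' : ∀ φ : TreeGraph (X (n := n)) d ≃g TreeGraph (X (n := n)) d,
      (∀ (W : {G : SimpleGraph (ZMod n) // IsPT X d G}) (i : ZMod n),
        E W.1 = bd n \ {c i} → E (φ W).1 = bd n \ {c i}) →
      ∀ T, φ T = T := fun φ h T => hfix _ hΓ φ h T
  have hsig' : ∀ φ : TreeGraph (X (n := n)) d ≃g TreeGraph (X (n := n)) d,
      ∃ σ : ZMod n → ZMod n,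
        (∀ (W : {G : SimpleGraph (ZMod n) // IsPT X d G}) (i : ZMod n),
          E W.1 = bd n \ {c i} → E (φ W).1 = bd n \ {c (σ i)}) ∧
        ((∀ x, σ x = σ 0 + x) ∨ (∀ x, σ x = σ 0 - x)) := fun φ => hsig _ hΓ φ
  have hB : ∀ i : ZMod n, ∃ W : {G : SimpleGraph (ZMod n) // IsPT X d G},
      E W.1 = bd n \ {c i} := by
    intro i
    obtain ⟨G, hG, hE⟩ := exists_B (n := n) (by omega) (d := d) (by omega) i
    exact ⟨⟨G, hG⟩, hE⟩
  have hbd : ∀ i j : ZMod n, bd n \ {c i} = bd n \ {c j} → i = j := by
    intro i j h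
    by_contra hne
    have h1 : c i ∈ bd n \ {c j} := by
      rw [Finset.mem_sdiff, Finset.mem_singleton]
      exact ⟨c_mem _, fun h => hne (c_inj (by omega) h)⟩
    rw [← h, Finset.mem_sdiff, Finset.mem_singleton] at h1
    exact h1.2 rfl
  have hinj : Function.Injective (act n d) := by
    rw [injective_iff_map_eq_one]
    intro g hg
    have h1 : ∀ i, rho n g i = i := by
      intro i
      obtain ⟨W, hW⟩ := hB i
      have h2 := E_act d g W i hW
      rw [hg] at h2
      have h3 : E W.1 = bd n \ {c (rho n g i)} := h2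
      exact (hbd _ _ (hW.symm.trans h3)).symm
    rcases g with s | s
    · have := h1 0
      simp only [rho, zero_add] at this
      rw [this, DihedralGroup.one_def]
    · exfalso
      have e0 := h1 0
      have e1 := h1 1
      simp only [rho] at e0 e1
      have e2 : (0 : ZMod n) + ((2 : ℕ) : ZMod n) = 0 + ((0 : ℕ) : ZMod n) := by
        push_cast
        linear_combination e0 - e1
      have := coord_inj (0 : ZMod n) (by omega) (by omega) e2
      omega
  have hsurj : Function.Surjective (act n d) := by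
    intro φ
    obtain ⟨σ, hσ, hdih⟩ := hsig' φ
    obtain ⟨g, hg⟩ : ∃ g : DihedralGroup n, ∀ i, rho n g i = σ i := by
      rcases hdih with h | h
      · refine ⟨.r (σ 0), fun i => ?_⟩
        simp only [rho]
        rw [h i]
        ring
      · refine ⟨.sr (-1 - σ 0), fun i => ?_⟩
        simp only [rho]
        rw [h i]
        ring
    refine ⟨g, ?_⟩
    have h1 := hfix' ((act n d g)⁻¹ * φ) ?_
    · ext T : 1
      have h2 := h1 T
      rw [RelIso.mul_apply] at h2
      have h3 := congrArg (act n d g) h2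
      rw [RelIso.apply_inv_self] at h3
      exact h3.symm
    · intro W i hW
      have h2 : φ W = act n d g W := by
        apply Subtype.ext
        apply E_inj
        have h3 := E_act d g W i hW
        rw [hg] at h3
        rw [hσ W i hW]
        exact h3.symm
      rw [RelIso.mul_apply, h2, RelIso.inv_apply_self]
      exact hW
  exact ⟨(MulEquiv.ofBijective (act n d) ⟨hinj, hsurj⟩).symm⟩

end

end Pool.Agent.Helper28K9.TG
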