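import Mathlib
import Pool.Agent.Helper28K9.TG.Dihedral

/-!
# Points in convex position: cyclic labelling and crossing segments
-/

set_option autoImplicit false
set_option linter.unusedSectionVars false
set_option linter.unusedVariables false

namespace Pool.Agent.Helper28K9.TG

open SimpleGraph

/-- the plane -/
abbrev Pl := EuclideanSpace ℝ (Fin 2)

/-- orientation determinant -/
def det (a b c : Pl) : ℝ := (b 0 - a 0) * (c 1 - a 1) - (b 1 - a 1) * (c 0 - a 0)

lemma Pl_ext {a b : Pl} (h0 : a 0 = b 0) (h1 : a 1 = b 1) : a = b := by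
  ext i
  fin_cases i
  · exact h0
  · exact h1

lemma det_comb (a b c d z : Pl) {s t : ℝ} (hst : s + t = 1) (h0 : z 0 = s * c 0 + t * d 0)
    (h1 : z 1 = s * c 1 + t * d 1) : det a b z = s * det a b c + t * det a b d := by
  unfold det
  rw [h0, h1]
  have : s = 1 - t := by linarith
  subst this
  ring

lemma seg_coord {a b z : Pl} (h : z ∈ segment ℝ a b) :
    ∃ s t : ℝ, 0 ≤ s ∧ 0 ≤ t ∧ s + t = 1 ∧ z 0 = s * a 0 + t * b 0 ∧ z 1 = s * a 1 + t * b 1 := by
  obtain ⟨s, t, hs, ht, hst, rfl⟩ := h
  exact ⟨s, t, hs, ht, hst, by simp, by simp⟩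

lemma mem_seg {a b z : Pl} {s t : ℝ} (hs : 0 ≤ s) (ht : 0 ≤ t) (hst : s + t = 1)
    (h0 : z 0 = s * a 0 + t * b 0) (h1 : z 1 = s * a 1 + t * b 1) : z ∈ segment ℝ a b := by
  refine ⟨s, t, hs, ht, hst, ?_⟩
  apply Pl_ext
  · simp [h0]
  · simp [h1]

section conv

variable {ι : Type*} {p : ι → Pl}

lemma comb (hp : ConvexIndependent ℝ p) {i j k l : ι} {x y z : ℝ} (hx : 0 ≤ x) (hy : 0 ≤ y)
    (hz : 0 ≤ z) (hs : 0 < x + y + z)
    (h0 : x * p i 0 + y * p j 0 + z * p k 0 = (x + y + z) * p l 0)
    (h1 : x * p i 1 + y * p j 1 + z * p k 1 = (x + y + z) * p l 1) :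
    l = i ∨ l = j ∨ l = k := by
  have hmem : p l ∈ convexHull ℝ (p '' {i, j, k}) := by
    have hc := convex_convexHull ℝ (p '' {i, j, k})
    have h := hc.sum_mem (t := (Finset.univ : Finset (Fin 3)))
      (w := ![x / (x + y + z), y / (x + y + z), z / (x + y + z)]) (z := ![p i, p j, p k]) ?_ ?_ ?_
    · rw [Fin.sum_univ_three] at h
      have e : p l = ![x / (x + y + z), y / (x + y + z), z / (x + y + z)] 0 • ![p i, p j, p k] 0 +
          ![x / (x + y + z), y / (x + y + z), z / (x + y + z)] 1 • ![p i, p j, p k] 1 +
          ![x / (x + y + z), y / (x + y + z), z / (x + y + z)] 2 • ![p i, p j, p k] 2 := by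
        apply Pl_ext
        · simp
          field_simp
          linarith
        · simp
          field_simp
          linarith
      rw [e]
      exact h
    · intro m _
      fin_cases m
      · simp; positivity
      · simp; positivity
      · simp; positivity
    · rw [Fin.sum_univ_three]
      simp
      field_simp
    · intro m _
      fin_cases m
      · exact subset_convexHull ℝ _ ⟨i, by simp, rfl⟩
      · exact subset_convexHull ℝ _ ⟨j, by simp, rfl⟩
      · exact subset_convexHull ℝ _ ⟨k, by simp, rfl⟩
  have := hp _ _ hmem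
  simpa using this

lemma det_ne_zero (hp : ConvexIndependent ℝ p) {i j k : ι} (hij : i ≠ j) (hik : i ≠ k)
    (hjk : j ≠ k) : det (p i) (p j) (p k) ≠ 0 := by
  intro h
  unfold det at h
  set u0 := p j 0 - p i 0 with hu0
  set u1 := p j 1 - p i 1 with hu1
  set w0 := p k 0 - p i 0 with hw0
  set w1 := p k 1 - p i 1 with hw1
  have hinj : Function.Injective p := hp.injective
  have hN : 0 < u0 ^ 2 + u1 ^ 2 := by
    by_contra hcon
    push Not at hcon
    have h0 : u0 = 0 := by nlinarith [sq_nonneg u0, sq_nonneg u1]
    have h1 : u1 = 0 := by nlinarith [sq_nonneg u0, sq_nonneg u1]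
    exact hij (hinj (Pl_ext (by linarith) (by linarith)))
  have e0 : (u0 ^ 2 + u1 ^ 2) * w0 = (w0 * u0 + w1 * u1) * u0 := by linear_combination (-u1) * h
  have e1 : (u0 ^ 2 + u1 ^ 2) * w1 = (w0 * u0 + w1 * u1) * u1 := by linear_combination u0 * h
  set N := u0 ^ 2 + u1 ^ 2 with hNdef
  set t := w0 * u0 + w1 * u1 with ht
  rcases le_total t 0 with h1 | h1
  · -- `i` is between `j` and `k`
    rcases comb hp (i := k) (j := j) (k := j) (l := i) (x := N) (y := -t) (z := 0) hN.le
      (by linarith) le_rfl (by linarith) (by rw [hw0, hu0] at e0; linarith)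
      (by rw [hw1, hu1] at e1; linarith) with h | h | h
    · exact hik h
    · exact hij h
    · exact hij h
  · rcases le_total t N with h2 | h2
    · rcases comb hp (i := i) (j := j) (k := j) (l := k) (x := N - t) (y := t) (z := 0)
        (by linarith) h1 le_rfl (by linarith) (by rw [hw0, hu0] at e0; linarith)
        (by rw [hw1, hu1] at e1; linarith) with h | h | h
      · exact hik h.symm
      · exact hjk h.symm
      · exact hjk h.symm
    · rcases comb hp (i := i) (j := k) (k := k) (l := j) (x := t - N) (y := N) (z := 0)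
        (by linarith) hN.le le_rfl (by linarith) (by rw [hw0, hu0] at e0; linarith)
        (by rw [hw1, hu1] at e1; linarith) with h | h | h
      · exact hij h.symm
      · exact hjk h
      · exact hjk h

/-- a sorting lemma -/
lemma exists_sort [Fintype ι] (r : ι → ι → Prop) (h : IsStrictTotalOrder ι r) {n : ℕ}
    (hn : Fintype.card ι = n) : ∃ e : Fin n ≃ ι, ∀ i j, i < j → r (e i) (e j) := by
  classical
  let := linearOrderOfSTO r
  refine ⟨(monoEquivOfFin ι hn).toEquiv, fun i j hij => ?_⟩
  exact (monoEquivOfFin ι hn).strictMono hij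

/-- cyclic labelling of points in convex position -/
lemma exists_label [Fintype ι] (hp : ConvexIndependent ℝ p) {n : ℕ} (hn : Fintype.card ι = n)
    (hn0 : 0 < n) :
    ∃ e : Fin n ≃ ι, ∀ i j k : Fin n, i < j → j < k → 0 < det (p (e i)) (p (e j)) (p (e k)) := by
  classical
  have : Nonempty ι := Fintype.card_pos_iff.1 (by omega)
  obtain ⟨o, ho⟩ := Finite.exists_min (fun i => toLex (p i 0, p i 1))
  have hinj : Function.Injective p := hp.injective
  have hpos : ∀ i, i ≠ o → p o 0 < p i 0 ∨ (p o 0 = p i 0 ∧ p o 1 < p i 1) := by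
    intro i hi
    have h1 := ho i
    rw [Prod.Lex.le_iff] at h1
    rcases h1 with h1 | ⟨h1, h2⟩
    · exact Or.inl h1
    · right
      refine ⟨h1, lt_of_le_of_ne h2 fun h3 => hi (hinj (Pl_ext h1.symm h3.symm))⟩
  let r : ι → ι → Prop := fun i j => (i = o ∧ j ≠ o) ∨
    (i ≠ o ∧ j ≠ o ∧ 0 < det (p o) (p i) (p j))
  have hr : IsStrictTotalOrder ι r :=
    { irrefl := by
        rintro i (⟨h1, h2⟩ | ⟨h1, h2, h3⟩)
        · exact h2 h1
        · unfold det at h3
          linarith
      trans := by
        rintro i j k (⟨h1, h2⟩ | ⟨h1, h2, h3⟩) (⟨h4, h5⟩ | ⟨h4, h5, h6⟩)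
        · exact absurd h4 h2
        · exact Or.inl ⟨h1, h5⟩
        · exact absurd h4 h2
        · refine Or.inr ⟨h1, h5, ?_⟩
          unfold det at h3 h6 ⊢
          have a1 := hpos i h1
          have a2 := hpos j h2
          have a3 := hpos k h5
          set x1 := p i 0 - p o 0 with hx1
          set y1 := p i 1 - p o 1 with hy1
          set x2 := p j 0 - p o 0 with hx2
          set y2 := p j 1 - p o 1 with hy2
          set x3 := p k 0 - p o 0 with hx3
          set y3 := p k 1 - p o 1 with hy3
          have b1 : 0 < x1 ∨ (x1 = 0 ∧ 0 < y1) := by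
            rcases a1 with h | ⟨h, h'⟩
            · left; linarith
            · right; constructor <;> linarith
          have b2 : 0 < x2 ∨ (x2 = 0 ∧ 0 < y2) := by
            rcases a2 with h | ⟨h, h'⟩
            · left; linarith
            · right; constructor <;> linarith
          have b3 : 0 < x3 ∨ (x3 = 0 ∧ 0 < y3) := by
            rcases a3 with h | ⟨h, h'⟩
            · left; linarith
            · right; constructor <;> linarith
          have hid : x2 * (x1 * y3 - y1 * x3) =
              x1 * (x2 * y3 - y2 * x3) + x3 * (x1 * y2 - y1 * x2) := by ring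
          rcases b2 with b2 | ⟨b2, b2'⟩
          · have c1 : 0 < x1 := by
              rcases b1 with h | ⟨h, h'⟩
              · exact h
              · exfalso
                rw [h] at h3
                nlinarith
            have c3 : 0 ≤ x3 := by
              rcases b3 with h | ⟨h, h'⟩
              · exact h.le
              · exact h.ge
            have c4 : 0 < x2 * (x1 * y3 - y1 * x3) := by
              rw [hid]
              have := mul_pos c1 h6
              have := mul_nonneg c3 h3.le
              linarith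
            exact (mul_pos_iff_of_pos_left b2).1 c4
          · exfalso
            rw [b2] at h6
            have c3 : 0 ≤ x3 := by
              rcases b3 with h | ⟨h, h'⟩
              · exact h.le
              · exact h.ge
            nlinarith
      trichotomous := by
        intro i j h1 h2
        by_contra hij
        by_cases hi : i = o
        · exact h1 (Or.inl ⟨hi, fun h => hij (hi.trans h.symm)⟩)
        by_cases hj : j = o
        · exact h2 (Or.inl ⟨hj, hi⟩)
        have h3 := det_ne_zero hp (i := o) (j := i) (k := j) (Ne.symm hi) (Ne.symm hj) hij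
        rcases lt_or_gt_of_ne h3 with h | h
        · apply h2
          refine Or.inr ⟨hj, hi, ?_⟩
          have : det (p o) (p j) (p i) = - det (p o) (p i) (p j) := by unfold det; ring
          rw [this]
          linarith
        · exact h1 (Or.inr ⟨hi, hj, h⟩) }
  obtain ⟨e, he⟩ := exists_sort r hr hn
  refine ⟨e, fun i j k hij hjk => ?_⟩
  have rij := he i j hij
  have rjk := he j k hjk
  have rik := he i k (hij.trans hjk)
  by_cases hi : e i = o
  · rcases rjk with ⟨h1, h2⟩ | ⟨h1, h2, h3⟩
    · exfalso
      rcases rij with ⟨h4, h5⟩ | ⟨h4, h5, h6⟩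
      · exact h5 h1
      · exact h5 h1
    · rw [hi]
      exact h3
  · rcases rij with ⟨h1, h2⟩ | ⟨h1, h2, h3⟩
    · exact absurd h1 hi
    rcases rjk with ⟨h4, h5⟩ | ⟨h4, h5, h6⟩
    · exact absurd h4 h2
    rcases rik with ⟨h7, h8⟩ | ⟨h7, h8, h9⟩
    · exact absurd h7 hi
    by_contra hcon
    push Not at hcon
    have hsum : - det (p (e i)) (p (e j)) (p (e k)) + det (p o) (p (e j)) (p (e k)) +
        det (p o) (p (e i)) (p (e j)) = det (p o) (p (e i)) (p (e k)) := by
      unfold det; ring
    rcases comb hp (i := o) (j := e i) (k := e k) (l := e j)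
      (x := - det (p (e i)) (p (e j)) (p (e k))) (y := det (p o) (p (e j)) (p (e k)))
      (z := det (p o) (p (e i)) (p (e j))) (by linarith) h6.le h3.le (by linarith)
      (by unfold det; ring) (by unfold det; ring) with h | h | h
    · exact h2 h
    · exact hij.ne' (e.injective h)
    · exact hjk.ne (e.injective h)

end conv

end Pool.Agent.Helper28K9.TG
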