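import Mathlib
import Pool.Agent.Helper28K9.TG.Geom

/-!
# Crossing segments of points in convex position
-/

set_option autoImplicit false
set_option linter.unusedSectionVars false
set_option linter.unusedVariables false

namespace Pool.Agent.Helper28K9.TG

open SimpleGraph

section

variable {n : ℕ} {q : Fin n → Pl}

lemma seg_inter (hq : ∀ i j k : Fin n, i < j → j < k → 0 < det (q i) (q j) (q k))
    {i j k l : Fin n} (hij : i < j) (hjk : j < k) (hkl : k < l) :
    ∃ z, z ∈ segment ℝ (q i) (q k) ∧ z ∈ segment ℝ (q j) (q l) := by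
  have h1 := hq j k l hjk hkl
  have h2 := hq i j l hij (hjk.trans hkl)
  have h3 := hq i k l (hij.trans hjk) hkl
  have h4 := hq i j k hij hjk
  set a := det (q j) (q k) (q l) with ha
  set b := det (q i) (q j) (q l) with hb
  set c' := det (q i) (q k) (q l) with hc
  set d := det (q i) (q j) (q k) with hd
  have hsum : a + b = c' + d := by
    rw [ha, hb, hc, hd]; unfold det; ring
  have e0 : a * q i 0 + b * q k 0 = c' * q j 0 + d * q l 0 := by
    rw [ha, hb, hc, hd]; unfold det; ring
  have e1 : a * q i 1 + b * q k 1 = c' * q j 1 + d * q l 1 := by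
    rw [ha, hb, hc, hd]; unfold det; ring
  have hab : 0 < a + b := by linarith
  have hcd : 0 < c' + d := by linarith
  refine ⟨(a / (a + b)) • q i + (b / (a + b)) • q k,
    ⟨a / (a + b), b / (a + b), by positivity, by positivity, by field_simp, rfl⟩, ?_⟩
  refine mem_seg (s := c' / (c' + d)) (t := d / (c' + d)) (by positivity) (by positivity)
    (by field_simp) ?_ ?_
  · simp only [PiLp.add_apply, PiLp.smul_apply, smul_eq_mul]
    rw [hsum]
    field_simp
    linarith
  · simp only [PiLp.add_apply, PiLp.smul_apply, smul_eq_mul]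
    rw [hsum]
    field_simp
    linarith

lemma det_zero_of_seg {a b z : Pl} (h : z ∈ segment ℝ a b) : det a b z = 0 := by
  obtain ⟨s, t, _, _, hst, h0, h1⟩ := seg_coord h
  rw [det_comb a b a b z hst h0 h1]
  unfold det
  ring

lemma seg_disj {a b c d z : Pl} (h1 : z ∈ segment ℝ a b) (h2 : z ∈ segment ℝ c d)
    (h : (0 < det a b c ∧ 0 < det a b d) ∨ (det a b c < 0 ∧ det a b d < 0)) : False := by
  have h3 := det_zero_of_seg h1
  obtain ⟨s, t, hs, ht, hst, e0, e1⟩ := seg_coord h2
  rw [det_comb a b c d z hst e0 e1] at h3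
  rcases h with ⟨h4, h5⟩ | ⟨h4, h5⟩
  · rcases hs.eq_or_lt with h6 | h6
    · rw [← h6] at h3 hst
      have : t = 1 := by linarith
      rw [this] at h3
      linarith
    · have := mul_pos h6 h4
      have := mul_nonneg ht h5.le
      linarith
  · rcases hs.eq_or_lt with h6 | h6
    · rw [← h6] at h3 hst
      have : t = 1 := by linarith
      rw [this] at h3
      linarith
    · have := mul_neg_of_pos_of_neg h6 h4
      have := mul_nonpos_of_nonneg_of_nonpos ht h5.le
      linarith

lemma seg_share {a b c z : Pl} (h1 : z ∈ segment ℝ a b) (h2 : z ∈ segment ℝ a c)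
    (h : det a b c ≠ 0) : z = a := by
  have h3 := det_zero_of_seg h1
  obtain ⟨s, t, hs, ht, hst, e0, e1⟩ := seg_coord h2
  rw [det_comb a b a c z hst e0 e1] at h3
  have h4 : det a b a = 0 := by unfold det; ring
  rw [h4, mul_zero, zero_add] at h3
  have h5 : t = 0 := by
    rcases mul_eq_zero.1 h3 with h6 | h6
    · exact h6
    · exact absurd h6 h
  have h6 : s = 1 := by linarith
  rw [h5, h6] at e0 e1
  exact Pl_ext (by linarith) (by linarith)

lemma det_swap (a b c : Pl) : det a c b = - det a b c := by unfold det; ring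
lemma det_rot (a b c : Pl) : det b c a = det a b c := by unfold det; ring

lemma det_ne (hq : ∀ i j k : Fin n, i < j → j < k → 0 < det (q i) (q j) (q k)) {i j k : Fin n}
    (hij : i ≠ j) (hik : i ≠ k) (hjk : j ≠ k) : det (q i) (q j) (q k) ≠ 0 := by
  intro h0
  rcases lt_or_gt_of_ne hij with h1 | h1 <;> rcases lt_or_gt_of_ne hik with h2 | h2 <;>
    rcases lt_or_gt_of_ne hjk with h3 | h3
  · exact (hq i j k h1 h3).ne' h0
  · have := hq i k j h2 h3
    unfold det at this h0
    linarith
  · exact absurd (h1.trans h3) (not_lt.2 h2.le)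
  · have := hq k i j h2 h1
    unfold det at this h0
    linarith
  · have := hq j i k h1 h2
    unfold det at this h0
    linarith
  · exact absurd (h3.trans h1) (not_lt.2 h2.le)
  · have := hq j k i h3 h2
    unfold det at this h0
    linarith
  · have := hq k j i h3 h1
    unfold det at this h0
    linarith

/-- the two segments meet in a point that is not a common endpoint -/
def Rg {ι : Type*} (p : ι → Pl) (a b c d : ι) : Prop :=
  s(a, b) ≠ s(c, d) ∧
    ¬ (segment ℝ (p a) (p b) ∩ segment ℝ (p c) (p d) ⊆ p '' ({a, b} ∩ {c, d}))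

/-- interleaving -/
def In (a b c d : ℕ) : Prop :=
  (a < c ∧ c < b ∧ b < d) ∨ (a < d ∧ d < b ∧ b < c) ∨ (b < c ∧ c < a ∧ a < d) ∨
    (b < d ∧ d < a ∧ a < c) ∨ (c < a ∧ a < d ∧ d < b) ∨ (c < b ∧ b < d ∧ d < a) ∨
    (d < a ∧ a < c ∧ c < b) ∨ (d < b ∧ b < c ∧ c < a)

lemma In_swap (a b c d : ℕ) : In b a c d ↔ In a b c d := by
  unfold In
  constructor <;> rintro (h | h | h | h | h | h | h | h) <;>
    simp only [h, and_self, true_or, or_true]

lemma In_swap' (a b c d : ℕ) : In a b d c ↔ In a b c d := by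
  unfold In
  constructor <;> rintro (h | h | h | h | h | h | h | h) <;>
    simp only [h, and_self, true_or, or_true]

lemma In_comm (a b c d : ℕ) : In c d a b ↔ In a b c d := by
  unfold In
  constructor <;> rintro (h | h | h | h | h | h | h | h) <;>
    simp only [h, and_self, true_or, or_true]

lemma Rg_swap {ι : Type*} (p : ι → Pl) (a b c d : ι) : Rg p b a c d ↔ Rg p a b c d := by
  unfold Rg
  rw [Sym2.eq_swap (a := b), segment_symm ℝ (p b), Set.pair_comm b a]

lemma Rg_swap' {ι : Type*} (p : ι → Pl) (a b c d : ι) : Rg p a b d c ↔ Rg p a b c d := by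
  unfold Rg
  rw [Sym2.eq_swap (a := d), segment_symm ℝ (p d), Set.pair_comm d c]

lemma Rg_comm {ι : Type*} (p : ι → Pl) (a b c d : ι) : Rg p c d a b ↔ Rg p a b c d := by
  unfold Rg
  rw [Set.inter_comm, Set.inter_comm {c, d}, ne_comm]

lemma Rg_iff_sorted (hq : ∀ i j k : Fin n, i < j → j < k → 0 < det (q i) (q j) (q k))
    {a b c d : Fin n} (hab : a < b) (hcd : c < d) (hac : a ≤ c) :
    Rg q a b c d ↔ In a b c d := by
  have hinj : ∀ {i j : Fin n}, i ≠ j → q i ≠ q j ∨ True := fun _ => Or.inr trivial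
  unfold Rg In
  rcases hac.eq_or_lt with rfl | hac
  · -- common endpoint `a`
    have hR : ¬ ((a.val < a.val ∧ a.val < b.val ∧ b.val < d.val) ∨
        (a.val < d.val ∧ d.val < b.val ∧ b.val < a.val) ∨
        (b.val < a.val ∧ a.val < a.val ∧ a.val < d.val) ∨
        (b.val < d.val ∧ d.val < a.val ∧ a.val < a.val) ∨
        (a.val < a.val ∧ a.val < d.val ∧ d.val < b.val) ∨
        (a.val < b.val ∧ b.val < d.val ∧ d.val < a.val) ∨
        (d.val < a.val ∧ a.val < a.val ∧ a.val < b.val) ∨
        (d.val < b.val ∧ b.val < a.val ∧ a.val < a.val)) := by omega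
    refine iff_of_false ?_ hR
    rintro ⟨h1, h2⟩
    apply h2
    rintro z ⟨hz1, hz2⟩
    have hbd : b ≠ d := fun h => h1 (by rw [h])
    have := seg_share hz1 hz2 (det_ne hq hab.ne hcd.ne hbd)
    exact ⟨a, by simp, this.symm⟩
  · have vab : a.val < b.val := hab
    have vcd : c.val < d.val := hcd
    have vac : a.val < c.val := hac
    rcases lt_trichotomy b c with h | h | h
    · have vbc : b.val < c.val := h
      refine iff_of_false ?_ (by omega)
      rintro ⟨_, h2⟩
      apply h2
      rintro z ⟨hz1, hz2⟩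
      exact (seg_disj hz1 hz2 (Or.inl ⟨hq a b c hab h, hq a b d hab (h.trans hcd)⟩)).elim
    · subst h
      refine iff_of_false ?_ (by omega)
      rintro ⟨_, h2⟩
      apply h2
      rintro z ⟨hz1, hz2⟩
      rw [segment_symm] at hz1
      have := seg_share hz1 hz2 (det_ne hq hab.ne' hcd.ne (hab.trans hcd).ne)
      exact ⟨b, by simp, this.symm⟩
    · have vcb : c.val < b.val := h
      rcases lt_trichotomy b d with h' | h' | h'
      · have vbd : b.val < d.val := h'
        refine iff_of_true ?_ (by omega)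
        obtain ⟨z, hz1, hz2⟩ := seg_inter hq hac h h'
        refine ⟨?_, fun hsub => ?_⟩
        · intro he
          rw [Sym2.eq_iff] at he
          rcases he with ⟨h1, h2⟩ | ⟨h1, h2⟩
          · exact hac.ne h1
          · exact (hac.trans hcd).ne h1
        · obtain ⟨w, hw, _⟩ := hsub ⟨hz1, hz2⟩
          rw [Set.mem_inter_iff, Set.mem_insert_iff, Set.mem_insert_iff, Set.mem_singleton_iff,
            Set.mem_singleton_iff] at hw
          rcases hw with ⟨rfl | rfl, h1 | h1⟩
          · exact hac.ne h1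
          · exact (hac.trans hcd).ne h1
          · exact h.ne' h1
          · exact h'.ne h1
      · subst h'
        refine iff_of_false ?_ (by omega)
        rintro ⟨_, h2⟩
        apply h2
        rintro z ⟨hz1, hz2⟩
        rw [segment_symm] at hz1 hz2
        have := seg_share hz1 hz2 (det_ne hq hab.ne' hcd.ne' hac.ne)
        exact ⟨b, by simp, this.symm⟩
      · have vdb : d.val < b.val := h'
        refine iff_of_false ?_ (by omega)
        rintro ⟨_, h2⟩
        apply h2
        rintro z ⟨hz1, hz2⟩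
        have g1 := hq a c b hac h
        have g2 := hq a d b (hac.trans hcd) h'
        rw [det_swap] at g1 g2
        exact (seg_disj hz1 hz2 (Or.inr ⟨by linarith, by linarith⟩)).elim

lemma Rg_iff (hq : ∀ i j k : Fin n, i < j → j < k → 0 < det (q i) (q j) (q k))
    {a b c d : Fin n} (hab : a ≠ b) (hcd : c ≠ d) : Rg q a b c d ↔ In a b c d := by
  have step1 : ∀ {a b c d : Fin n}, a < b → c < d → (Rg q a b c d ↔ In a b c d) := by
    intro a b c d hab hcd
    rcases le_total a c with h | h
    · exact Rg_iff_sorted hq hab hcd h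
    · rw [← Rg_comm, Rg_iff_sorted hq hcd hab h, In_comm]
  have step2 : ∀ {a b c d : Fin n}, a < b → c ≠ d → (Rg q a b c d ↔ In a b c d) := by
    intro a b c d hab hcd
    rcases lt_or_gt_of_ne hcd with h | h
    · exact step1 hab h
    · rw [← Rg_swap', step1 hab h, In_swap']
  rcases lt_or_gt_of_ne hab with h | h
  · exact step2 h hcd
  · rw [← Rg_swap, step2 h hcd, In_swap]

lemma val_cast_sub [NeZero n] {x y : ℕ} (hx : x < n) (hy : y < n) :
    ((y : ZMod n) - (x : ZMod n)).val = if x ≤ y then y - x else n + y - x := by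
  split_ifs with h
  · have := val_diff (0 : ZMod n) h hy
    simpa using this
  · have e : (y : ZMod n) - (x : ZMod n) = ((n + y - x : ℕ) : ZMod n) := by
      rw [Nat.cast_sub (by omega)]
      push_cast
      simp
    rw [e, ZMod.val_cast_of_lt (by omega)]

lemma Cr_iff [NeZero n] {a b c d : ℕ} (ha : a < n) (hb : b < n) (hc : c < n) (hd : d < n) :
    Cr (a : ZMod n) (b : ZMod n) (c : ZMod n) (d : ZMod n) ↔
      (a < c ∧ c < b ∧ b < d) ∨ (d < a ∧ a < c ∧ c < b) ∨ (b < d ∧ d < a ∧ a < c) ∨
        (c < b ∧ b < d ∧ d < a) := by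
  unfold Cr
  rw [val_cast_sub ha hc, val_cast_sub ha hb, val_cast_sub ha hd]
  split_ifs <;> omega

lemma X_iff [NeZero n] {a b c d : ℕ} (ha : a < n) (hb : b < n) (hc : c < n) (hd : d < n) :
    X (a : ZMod n) (b : ZMod n) (c : ZMod n) (d : ZMod n) ↔ In a b c d := by
  unfold X In
  rw [Cr_iff ha hb hc hd, Cr_iff ha hb hd hc]
  constructor
  · rintro ((h | h | h | h) | (h | h | h | h)) <;> simp only [h, and_self, true_or, or_true]
  · rintro (h | h | h | h | h | h | h | h) <;> simp only [h, and_self, true_or, or_true]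

/-- the vertices of the polygon -/
def finZ (n : ℕ) [NeZero n] : Fin n ≃ ZMod n where
  toFun i := (i.val : ZMod n)
  invFun z := ⟨z.val, ZMod.val_lt z⟩
  left_inv i := by
    apply Fin.ext
    exact ZMod.val_cast_of_lt i.isLt
  right_inv z := ZMod.natCast_zmod_val z

/-- the cyclic labelling turns crossings into interleaving pairs -/
theorem exists_cyclic {n : ℕ} [NeZero n] {p : Fin n → Pl} (hp : ConvexIndependent ℝ p) :
    ∃ e : Fin n ≃ ZMod n, ∀ a b c d : Fin n, a ≠ b → c ≠ d →
      (Rg p a b c d ↔ X (e a) (e b) (e c) (e d)) := by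
  obtain ⟨f, hf⟩ := exists_label hp (n := n) (by simp) (Nat.pos_of_ne_zero (NeZero.ne n))
  refine ⟨f.symm.trans (finZ n), fun a b c d hab hcd => ?_⟩
  have h1 := Rg_iff (q := p ∘ f) hf (a := f.symm a) (b := f.symm b) (c := f.symm c) (d := f.symm d)
    (fun h => hab (f.symm.injective h)) (fun h => hcd (f.symm.injective h))
  have h2 : Rg (p ∘ f) (f.symm a) (f.symm b) (f.symm c) (f.symm d) ↔ Rg p a b c d := by
    unfold Rg
    refine and_congr ?_ ?_
    · rw [ne_eq, ne_eq, Sym2.eq_iff, Sym2.eq_iff]
      simp only [EmbeddingLike.apply_eq_iff_eq]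
    · rw [not_iff_not]
      have e1 : (p ∘ f) '' ({f.symm a, f.symm b} ∩ {f.symm c, f.symm d}) =
          p '' ({a, b} ∩ {c, d}) := by
        rw [Set.image_comp, Set.image_inter f.injective]
        congr 1
        simp [Set.image_pair]
      rw [e1]
      simp
  rw [← h2, h1]
  change _ ↔ X (((f.symm a).val : ℕ) : ZMod n) (((f.symm b).val : ℕ) : ZMod n)
    (((f.symm c).val : ℕ) : ZMod n) (((f.symm d).val : ℕ) : ZMod n)
  rw [X_iff (f.symm a).isLt (f.symm b).isLt (f.symm c).isLt (f.symm d).isLt]

end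

end Pool.Agent.Helper28K9.TG
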